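import Pool.Agent.Lib.TH.Flat5
import Pool.Agent.Lib.CX.Vol
import Pool.Agent.Lib.CX.ClifGr
import Pool.Agent.Lib.ANA.Chart
import Pool.Agent.Lib.LICH.Int

/-! Weak solutions are strong solutions, and the Rellich estimate, for the Dirac operator in the
common domain of a chart and a frame. -/

open MeasureTheory Filter Topology Set
open scoped ContDiff RealInnerProductSpace Manifold

noncomputable section

namespace Pool.Agent.Lib.TH

open CX ANA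

variable {n N : ℕ} {X : SM n} {T : Type} [NormedAddCommGroup T] [NormedSpace ℝ T]
  {H : Type*} [NormedAddCommGroup H] [InnerProductSpace ℝ H]

/-- test functions in an open subset of the manifold -/
def MT (O : Set X.M) (ψ : X.M → T) : Prop :=
  ContMDiff (𝓡 n) 𝓘(ℝ, T) ∞ ψ ∧ HasCompactSupport ψ ∧ tsupport ψ ⊆ O

open Classical in
/-- a function in the chart, extended by zero -/
def up (x₀ : X.M) (f : Eu n → T) (p : X.M) : T :=
  if p ∈ (X.ct x₀).source then f (X.ct x₀ p) else 0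

open Classical in
/-- a function read in the chart -/
def dn (x₀ : X.M) (ψ : X.M → T) (y : Eu n) : T :=
  if y ∈ (X.ct x₀).target then ψ ((X.ct x₀).symm y) else 0

variable {x₀ : X.M} {a : ℕ} {f : Eu n → T} {ψ : X.M → T}

omit [NormedSpace ℝ T] in
lemma up_ci {y : Eu n} (hy : y ∈ (X.ct x₀).target) : up x₀ f ((X.ct x₀).symm y) = f y := by
  rw [up, if_pos ((X.ct x₀).map_target hy), (X.ct x₀).right_inv hy]

omit [NormedSpace ℝ T] in
lemma up_ev {y : Eu n} (hy : y ∈ (X.ct x₀).target) :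
    (fun z => up x₀ f ((X.ct x₀).symm z)) =ᶠ[𝓝 y] f := by
  filter_upwards [(X.ct x₀).open_target.mem_nhds hy] with z hz using up_ci hz

omit [NormedSpace ℝ T] in
lemma tsupport_up (hc : HasCompactSupport f) (hs : tsupport f ⊆ (X.ct x₀).target) :
    IsCompact ((X.ct x₀).symm '' tsupport f) ∧ tsupport (up x₀ f) ⊆ (X.ct x₀).symm '' tsupport f := by
  have h := hc.isCompact.image_of_continuousOn ((X.ct x₀).continuousOn_symm.mono hs)
  refine ⟨h, closure_minimal (fun p hp => ?_) h.isClosed⟩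
  by_cases h1 : p ∈ (X.ct x₀).source
  · exact ⟨X.ct x₀ p, subset_tsupport _ (by simpa [up, h1] using hp), (X.ct x₀).left_inv h1⟩
  · simp [up, h1] at hp

omit [NormedSpace ℝ T] in
lemma tsupport_dn (hc : HasCompactSupport ψ) (hs : tsupport ψ ⊆ (X.ct x₀).source) :
    IsCompact (X.ct x₀ '' tsupport ψ) ∧ tsupport (dn x₀ ψ) ⊆ X.ct x₀ '' tsupport ψ := by
  have h := hc.isCompact.image_of_continuousOn ((X.ct x₀).continuousOn.mono hs)
  refine ⟨h, closure_minimal (fun y hy => ?_) h.isClosed⟩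
  by_cases h1 : y ∈ (X.ct x₀).target
  · exact ⟨(X.ct x₀).symm y, subset_tsupport _ (by simpa [dn, h1] using hy), (X.ct x₀).right_inv h1⟩
  · simp [dn, h1] at hy

omit [NormedSpace ℝ T] in
lemma up_dn (hs : tsupport ψ ⊆ (X.ct x₀).source) : up x₀ (dn x₀ ψ) = ψ := by
  funext p
  by_cases h : p ∈ (X.ct x₀).source
  · rw [up, if_pos h, dn, if_pos ((X.ct x₀).map_source h), (X.ct x₀).left_inv h]
  · rw [up, if_neg h, image_eq_zero_of_notMem_tsupport fun h' => h (hs h')]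

lemma Test.up (h : Test (X.Om x₀ a) f) : MT (X.W x₀ a) (up x₀ f) := by
  obtain ⟨h1, h2⟩ := tsupport_up h.2.1 (h.2.2.trans SM.Om_sub)
  have h3 : tsupport (TH.up x₀ f) ⊆ X.W x₀ a := h2.trans (by
    rintro _ ⟨y, hy, rfl⟩; exact SM.symm_mem_W (h.2.2 hy))
  refine ⟨contMDiff_of_tsupport fun p hp => ?_, h1.of_isClosed_subset (isClosed_tsupport _) h2, h3⟩
  obtain ⟨y, hy, rfl⟩ := h2 hp
  have hy' := SM.Om_sub (h.2.2 hy)
  exact (Fm.smooth_ci hy' le_rfl).2 (h.1.contDiffAt.congr_of_eventuallyEq (up_ev hy'))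

lemma MT.dn (h : MT (X.W x₀ a) ψ) : Test (X.Om x₀ a) (dn x₀ ψ) := by
  obtain ⟨h1, h2⟩ := tsupport_dn h.2.1 (h.2.2.trans inter_subset_left)
  have h3 : tsupport (TH.dn x₀ ψ) ⊆ X.Om x₀ a := h2.trans (image_mono h.2.2)
  refine ⟨LICH.contDiff_of_tsupp fun y hy => ?_, h1.of_isClosed_subset (isClosed_tsupport _) h2, h3⟩
  have hy' := SM.Om_sub (h3 hy)
  refine ((Fm.smooth_ci hy' le_rfl).1 (h.1 _)).congr_of_eventuallyEq ?_
  filter_upwards [(X.ct x₀).open_target.mem_nhds hy'] with z hz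
  rw [TH.dn, if_pos hz]

lemma MT.up_dn (h : MT (X.W x₀ a) ψ) : up x₀ (TH.dn x₀ ψ) = ψ :=
  TH.up_dn (h.2.2.trans inter_subset_left)

lemma Om_eq : X.Om x₀ a = (X.ct x₀).target ∩ Fm.ci x₀ ⁻¹' X.U a := by
  refine Subset.antisymm (fun y hy => ⟨SM.Om_sub hy, (SM.symm_mem_W hy).2⟩) fun y hy => ?_
  exact ⟨_, ⟨(X.ct x₀).map_target hy.1, hy.2⟩, (X.ct x₀).right_inv hy.1⟩

lemma par_Om (x₀ : X.M) (a : ℕ) : Fm.Par (X.F a) (Fm.ci x₀) (X.Om x₀ a) := by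
  rw [Om_eq]; exact (ANA.sm X a).par x₀

variable (S : Spinor n N) (w : Eu N →L[ℝ] Eu N)

variable (x₀ a) in
/-- the operator `w D` in the chart -/
def Pc : (Eu n → Eu N) → Eu n → Eu N :=
  Pfr (fun i _ => w.comp (gam S i)) (Fm.pe (X.F a) (Fm.ci x₀))
    fun y => ∑ i, w.comp ((gam S i).comp (Fm.con (X.F a) (gam S) i (Fm.ci x₀ y)))

lemma Pc_eq (f : Eu n → Eu N) (y : Eu n) :
    Pc x₀ a S w f y = w ((Fm.dat (X.F a) (gam S) (Fm.ci x₀)).dir f y) := by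
  simp only [Pc, Pfr, LICH.Dat.dir, LICH.Dat.nab, Fm.con_dat, map_sum, map_add,
    ContinuousLinearMap.comp_apply, ContinuousLinearMap.sum_apply, Finset.sum_add_distrib]
  rfl

lemma up_Pc {f : Eu n → Eu N} (h : Test (X.Om x₀ a) f) :
    up x₀ (Pc x₀ a S w f) = fun p => w (X.dirac S a (up x₀ f) p) := by
  funext p
  rw [dirac_eq]
  by_cases hp : p ∈ (X.ct x₀).source
  · have hy := (X.ct x₀).map_source hp
    rw [up, if_pos hp, Pc_eq, ← LICH.Dat.dir_congr (up_ev hy), ← Fm.dir_ci _ hy, Fm.ci_chart hp]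
  · rw [up, if_neg hp, Fm.dir_zero _ (notMem_tsupport_iff_eventuallyEq.1 fun h' =>
      hp (h.up.2.2 h').1), map_zero]

variable {μ : Measure X.M}

lemma integral_up (hμ : X.IsVol μ) {f g : Eu n → Eu N} (hf : Test (X.Om x₀ a) f)
    (hg : Test (X.Om x₀ a) g) :
    ∫ p, ⟪up x₀ f p, up x₀ g p⟫ ∂μ = ∫ y, X.dens x₀ a y * ⟪f y, g y⟫ := by
  rw [hμ.integral_eq x₀ a (hf.up.1.continuous.inner hg.up.1.continuous).aestronglyMeasurable
    fun p hp => by rw [image_eq_zero_of_notMem_tsupport fun h => hp (hf.up.2.2 h), inner_zero_left],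
    ← setIntegral_eq_integral_of_forall_compl_eq_zero (s := X.Om x₀ a)
      (f := fun y => X.dens x₀ a y * ⟪f y, g y⟫) fun y hy => by
      rw [image_eq_zero_of_notMem_tsupport fun h => hy (hf.2.2 h), inner_zero_left, mul_zero]]
  refine setIntegral_congr_fun (X.isOpen_Om x₀ a).measurableSet fun y hy => ?_
  simp only [up_ci (SM.Om_sub hy), smul_eq_mul]

/-- the chart of a spin manifold is a chart in the sense of the flat analysis -/
theorem chart_of (hμ : X.IsVol μ) {cls : (X.M → Eu N) → H}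
    (hcls : ∀ ψ φ, MT (X.W x₀ a) ψ → MT (X.W x₀ a) φ → ⟪cls ψ, cls φ⟫ = ∫ p, ⟪ψ p, φ p⟫ ∂μ) :
    Chart volume (X.Om x₀ a) (X.dens x₀ a) (fun i _ => w.comp (gam S i))
      (Fm.pe (X.F a) (Fm.ci x₀))
      (fun y => ∑ i, w.comp ((gam S i).comp (Fm.con (X.F a) (gam S) i (Fm.ci x₀ y))))
      fun f => cls (up x₀ f) where
  op := X.isOpen_Om x₀ a
  hr := SM.contDiffOn_dens x₀ a
  pos _ hy := SM.dens_pos a (SM.Om_sub hy)
  hγ _ := contDiffOn_const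
  he i y hy := ((par_Om x₀ a).pe_smooth hy i).contDiffWithinAt
  hc y hy := (ContDiffAt.sum fun i _ => contDiffAt_const.clm_comp (contDiffAt_const.clm_comp
    ((Fm.smooth_ci (SM.Om_sub hy) le_rfl).1
      ((ANA.sm X a).con_smooth (SM.symm_mem_W hy).2 _ i)))).contDiffWithinAt
  inn f g hf hg := by rw [hcls _ _ hf.up hg.up, integral_up hμ hf hg]

lemma MT.dirac {ψ : X.M → Eu N} {O : Set X.M} (h : MT O ψ) (hO : O ⊆ X.U a) :
    MT O (X.dirac S a ψ) := by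
  have hs : tsupport (X.dirac S a ψ) ⊆ tsupport ψ := closure_minimal (fun p hp => by
    by_contra hn
    exact hp (by rw [dirac_eq, Fm.dir_zero _ (notMem_tsupport_iff_eventuallyEq.1 hn)]))
    (isClosed_tsupport _)
  refine ⟨contMDiff_of_tsupport fun p hp => ?_, h.2.1.of_isClosed_subset (isClosed_tsupport _) hs,
    hs.trans h.2.2⟩
  rw [dirac_eq]
  exact (ANA.sm X a).dir_smooth (hO (h.2.2 (hs hp))) (h.1 p) _

lemma MT.map {ψ : X.M → Eu N} {O : Set X.M} (h : MT O ψ) : MT O fun p => w (ψ p) :=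
  ⟨w.contMDiff.comp h.1, h.2.1.mono fun p hp h' => hp (by simp [h']),
    (tsupport_comp_subset (g := w) (map_zero w) ψ).trans h.2.2⟩

lemma dens_eq {y : Eu n} (hy : y ∈ (X.ct x₀).target) : X.dens x₀ a y =
    LICH.rho (EuclideanSpace.basisFun (Fin n) ℝ).toBasis (Fm.pe (X.F a) (Fm.ci x₀)) y := by
  have h : ∀ i, Fm.pe (X.F a) (Fm.ci x₀) i y
      = X.J x₀ a ((X.ct x₀).symm y) ((EuclideanSpace.basisFun (Fin n) ℝ).toBasis i) := fun i => by
    rw [Fm.pe, Fm.pm_ci hy]; simp [SM.J, bv]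
  simp only [SM.dens, LICH.rho, h]
  have := (EuclideanSpace.basisFun (Fin n) ℝ).toBasis.det_comp
    (X.J x₀ a ((X.ct x₀).symm y)).toLinearMap (EuclideanSpace.basisFun (Fin n) ℝ).toBasis
  rw [Module.Basis.det_self, mul_one] at this
  rw [ContinuousLinearMap.det, ← this]
  rfl

lemma con_Om (x₀ : X.M) (a : ℕ) : ContDiffOn ℝ ∞
    (fun y => ∑ i, w.comp ((gam S i).comp (Fm.con (X.F a) (gam S) i (Fm.ci x₀ y)))) (X.Om x₀ a) :=
  fun y hy => (ContDiffAt.sum fun i _ => contDiffAt_const.clm_comp (contDiffAt_const.clm_comp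
    ((Fm.smooth_ci (SM.Om_sub hy) le_rfl).1
      ((ANA.sm X a).con_smooth (SM.symm_mem_W hy).2 _ i)))).contDiffWithinAt

lemma Test.pc {f : Eu n → Eu N} (h : Test (X.Om x₀ a) f) : Test (X.Om x₀ a) (Pc x₀ a S w f) :=
  h.pfr (X.isOpen_Om x₀ a) (fun _ => contDiffOn_const)
    (fun i _ hy => ((par_Om x₀ a).pe_smooth hy i).contDiffWithinAt) (con_Om S w x₀ a)

/-- the Dirac operator is symmetric on test functions of a chart -/
theorem dirac_symm (hμ : X.IsVol μ) {ψ φ : X.M → Eu N} (hψ : MT (X.W x₀ a) ψ)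
    (hφ : MT (X.W x₀ a) φ) :
    ∫ p, ⟪X.dirac S a ψ p, φ p⟫ ∂μ = ∫ p, ⟪ψ p, X.dirac S a φ p⟫ ∂μ := by
  have h1 := integral_up hμ (hψ.dn.pc S 1) hφ.dn
  have h2 := integral_up hμ hψ.dn (hφ.dn.pc S 1)
  rw [up_Pc S 1 hψ.dn, hψ.up_dn, hφ.up_dn] at h1
  rw [up_Pc S 1 hφ.dn, hψ.up_dn, hφ.up_dn] at h2
  have h3 := LICH.Dat.integral_dir (EuclideanSpace.basisFun (Fin n) ℝ).toBasis volume
    ((gam_cl S).dat (X.F a) (Fm.ci x₀)) (u := dn x₀ ψ) (v := dn x₀ φ)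
    (fun y hy => (par_Om x₀ a).frameAt (hφ.dn.2.2 hy))
    (fun y _ => hψ.dn.1.contDiffAt.of_le (by norm_cast))
    (fun y _ => hφ.dn.1.contDiffAt.of_le (by norm_cast)) hφ.dn.2.1
  simp only [ContinuousLinearMap.one_apply, Pc_eq] at h1 h2
  rw [h1, h2]
  rw [show (Fm.dat (X.F a) (gam S) (Fm.ci x₀)).σ = 1 from rfl, one_mul] at h3
  convert h3 using 2 with y y
  · ext y
    by_cases hy : y ∈ tsupport (dn x₀ φ)
    · rw [dens_eq (SM.Om_sub (hφ.dn.2.2 hy)), mul_comm]; rfl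
    · simp [image_eq_zero_of_notMem_tsupport hy]
  · ext y
    by_cases hy : y ∈ tsupport (dn x₀ ψ)
    · rw [dens_eq (SM.Om_sub (hψ.dn.2.2 hy)), mul_comm]; rfl
    · simp [image_eq_zero_of_notMem_tsupport hy]

variable {cls : (X.M → Eu N) → H}

/-- **Weak solutions are strong solutions** for `w D` in the domain of a chart and a frame. -/
theorem weak_strong (hμ : X.IsVol μ)
    (hcls : ∀ ψ φ, MT (X.W x₀ a) ψ → MT (X.W x₀ a) φ → ⟪cls ψ, cls φ⟫ = ∫ p, ⟪ψ p, φ p⟫ ∂μ)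
    {σ : ℝ} (hw1 : ∀ u v, ⟪w u, v⟫ = ⟪u, w v⟫) (hw2 : ∀ i u, gam S i (w u) = σ • w (gam S i u))
    (hw3 : ∀ i p u, Fm.con (X.F a) (gam S) i p (w u) = w (Fm.con (X.F a) (gam S) i p u))
    {K : Set X.M} (hK : IsCompact K) (hKW : K ⊆ X.W x₀ a) {u v : H}
    (hu : u ∈ closure (cls '' {ψ | MT (X.W x₀ a) ψ ∧ tsupport ψ ⊆ K}))
    (hv : ∀ ψ, MT (X.W x₀ a) ψ → ⟪u, cls fun p => w (X.dirac S a ψ p)⟫ = ⟪v, cls ψ⟫) :
    ∃ C, ∀ η, 0 < η → ∃ ψ, MT (X.W x₀ a) ψ ∧ ‖u - cls ψ‖ < η ∧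
      ‖cls fun p => w (X.dirac S a ψ p)‖ ≤ C := by
  have hD : ∀ {ψ : X.M → Eu N}, MT (X.W x₀ a) ψ → ∀ p,
      X.dirac S a (fun p => w (ψ p)) p = σ • w (X.dirac S a ψ p) := by
    intro ψ hψ p
    simp only [dirac_eq, Fm.dir, Fm.nab, Fm.dd_map _ w (hψ.1.mdifferentiable (by simp) p), hw3,
      ← map_add w, hw2, map_sum, Finset.smul_sum]
  obtain ⟨C, hC⟩ := (chart_of S w hμ hcls).weak_strong (σ := σ) (u := u) (w := v)
    (fun f g hf hg => by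
      change ⟪cls (up x₀ (Pc x₀ a S w f)), _⟫ = σ * ⟪_, cls (up x₀ (Pc x₀ a S w g))⟫
      rw [hcls _ _ (hf.pc S w).up hg.up, hcls _ _ hf.up (hg.pc S w).up, up_Pc S w hf, up_Pc S w hg]
      simp only [hw1]
      rw [dirac_symm S hμ hf.up (hg.up.map w), ← integral_const_mul]
      simp only [hD hg.up, real_inner_smul_right])
    (hK.image_of_continuousOn ((X.ct x₀).continuousOn.mono (hKW.trans inter_subset_left)))
    (image_mono hKW) (closure_mono (by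
      rintro _ ⟨ψ, ⟨h1, h2⟩, rfl⟩
      exact ⟨dn x₀ ψ, ⟨h1.dn, (tsupport_dn h1.2.1 (h1.2.2.trans inter_subset_left)).2.trans
        (image_mono h2)⟩, by simp only [h1.up_dn]⟩) hu)
    (fun f hf => by
      change ⟪u, cls (up x₀ (Pc x₀ a S w f))⟫ = _
      rw [up_Pc S w hf, hv _ hf.up])
  refine ⟨C, fun η hη => ?_⟩
  obtain ⟨f, hf, h1, h2⟩ := hC η hη
  exact ⟨up x₀ f, hf.up, h1, by rw [← up_Pc S w hf]; exact h2⟩

/-- The case of the grading operator. -/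
theorem weak_strong_gr (hn : 4 ∣ n) (hμ : X.IsVol μ)
    (hcls : ∀ ψ φ, MT (X.W x₀ a) ψ → MT (X.W x₀ a) φ → ⟪cls ψ, cls φ⟫ = ∫ p, ⟪ψ p, φ p⟫ ∂μ)
    {K : Set X.M} (hK : IsCompact K) (hKW : K ⊆ X.W x₀ a) {u v : H}
    (hu : u ∈ closure (cls '' {ψ | MT (X.W x₀ a) ψ ∧ tsupport ψ ⊆ K}))
    (hv : ∀ ψ, MT (X.W x₀ a) ψ → ⟪u, cls fun p => S.gr (X.dirac S a ψ p)⟫ = ⟪v, cls ψ⟫) :
    ∃ C, ∀ η, 0 < η → ∃ ψ, MT (X.W x₀ a) ψ ∧ ‖u - cls ψ‖ < η ∧
      ‖cls fun p => S.gr (X.dirac S a ψ p)‖ ≤ C := by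
  have he : Even n := even_iff_two_dvd.2 (dvd_trans (by norm_num) hn)
  exact weak_strong S S.gr hμ hcls (σ := -1) (S.inner_gr hn)
    (fun i u => by rw [gam, S.gr_ι he]; simp)
    (fun i p u => (congrArg (· u) (Fm.con_comm (X.F a) (x := p) (i := i)
      fun j => S.gr_mul_ι he (bv j))).symm) hK hKW hu hv

/-- **Rellich** for `w D` in the domain of a chart and a frame. -/
theorem rellich (hμ : X.IsVol μ)
    (hcls : ∀ ψ φ, MT (X.W x₀ a) ψ → MT (X.W x₀ a) φ → ⟪cls ψ, cls φ⟫ = ∫ p, ⟪ψ p, φ p⟫ ∂μ)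
    (hw : ∀ u v, ⟪w u, w v⟫ = ⟪u, v⟫) {K : Set X.M} (hK : IsCompact K) (hKW : K ⊆ X.W x₀ a)
    {δ : ℝ} (hδ : 0 < δ) :
    ∃ (m : ℕ) (F G : Fin m → X.M → Eu N), (∀ i, MT (X.W x₀ a) (F i)) ∧ (∀ i, MT (X.W x₀ a) (G i)) ∧
      ∀ ψ, MT (X.W x₀ a) ψ → tsupport ψ ⊆ K →
        ‖cls ψ - ∑ i, ⟪cls (G i), cls ψ⟫ • cls (F i)‖ ^ 2
          ≤ δ * (‖cls fun p => w (X.dirac S a ψ p)‖ ^ 2 + ‖cls ψ‖ ^ 2) := by
  have hcl : ∀ i j p q, ⟪w.comp (gam S i) p, w.comp (gam S j) q⟫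
      + ⟪w.comp (gam S j) p, w.comp (gam S i) q⟫ = if i = j then 2 * ⟪p, q⟫ else 0 := by
    intro i j p q
    have h := congrArg (fun A : Eu N →L[ℝ] Eu N => ⟪p, A q⟫) ((gam_cl S).rel.2 i j)
    simp only [ContinuousLinearMap.comp_apply, hw, (gam_cl S).adj]
    simp only [ContinuousLinearMap.add_apply, ContinuousLinearMap.mul_apply, inner_add_right] at h
    rw [← neg_add, h]
    split_ifs <;> simp [real_inner_smul_right]
  obtain ⟨m, F, G, hF, hG, h⟩ := (chart_of S w hμ hcls).rellich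
    (fun y hy L hL => ell_pos hcl
      (((par_Om x₀ a).frameAt hy).li.self_of_nhds.span_eq_top_of_card_eq_finrank' (by simp)) hL)
    (hK.image_of_continuousOn ((X.ct x₀).continuousOn.mono (hKW.trans inter_subset_left)))
    (image_mono hKW) hδ
  refine ⟨m, fun i => up x₀ (F i), fun i => up x₀ (G i), fun i => (hF i).up, fun i => (hG i).up,
    fun ψ h1 h2 => ?_⟩
  have h3 := h (dn x₀ ψ) h1.dn ((tsupport_dn h1.2.1 (h1.2.2.trans inter_subset_left)).2.trans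
    (image_mono h2))
  change _ ≤ δ * (‖cls (up x₀ (Pc x₀ a S w (dn x₀ ψ)))‖ ^ 2 + _) at h3
  rwa [up_Pc S w h1.dn, h1.up_dn] at h3

end Pool.Agent.Lib.TH
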