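import Pool.Agent.Lib.TH.Flat4

/-! Flat analysis for first order operators, part 5: the final statements, for an operator in a
chart of an abstract real Hilbert space. -/

open MeasureTheory Filter Topology Set Metric
open scoped ContDiff RealInnerProductSpace

noncomputable section

namespace Pool.Agent.Lib.TH

variable {X : Type*} [NormedAddCommGroup X] [NormedSpace ℝ X] [FiniteDimensional ℝ X]
  [MeasurableSpace X] [BorelSpace X] {μ : Measure X} [μ.IsAddHaarMeasure]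
  {V : Type*} [NormedAddCommGroup V] [InnerProductSpace ℝ V]
  {H : Type*} [NormedAddCommGroup H] [InnerProductSpace ℝ H] {ι : Type*}

/-- A chart: test functions on `U` are mapped by `ext` to `H`, isometrically for the density `r`;
the coefficients of the operator `Pfr γ e c` are smooth on `U`. -/
structure Chart (μ : Measure X) (U : Set X) (r : X → ℝ) (γ : ι → X → V →L[ℝ] V) (e : ι → X → X)
    (c : X → V →L[ℝ] V) (ext : (X → V) → H) : Prop where
  op : IsOpen U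
  hr : ContDiffOn ℝ ∞ r U
  pos : ∀ x ∈ U, 0 < r x
  hγ : ∀ i, ContDiffOn ℝ ∞ (γ i) U
  he : ∀ i, ContDiffOn ℝ ∞ (e i) U
  hc : ContDiffOn ℝ ∞ c U
  inn : ∀ f g, Test U f → Test U g → ⟪ext f, ext g⟫ = ∫ x, r x * ⟪f x, g x⟫ ∂μ

section Test
variable {W : Type*} [NormedAddCommGroup W] [NormedSpace ℝ W] {U : Set X} {f g : X → W}

omit [FiniteDimensional ℝ X] [MeasurableSpace X] [BorelSpace X] in
lemma Tst.test (h : Tst f) (hs : tsupport f ⊆ U) : Test U f := ⟨h.sm, h.cpt, hs⟩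

omit [FiniteDimensional ℝ X] [MeasurableSpace X] [BorelSpace X] in
lemma tsupport_lin {K : Set X} (hf : tsupport f ⊆ K) (hg : tsupport g ⊆ K) (s t : ℝ) :
    tsupport (fun x => s • f x + t • g x) ⊆ K := by
  refine (closure_minimal (fun x hx => ?_)
    ((isClosed_tsupport f).union (isClosed_tsupport g))).trans (union_subset hf hg)
  by_contra h
  rw [mem_union, not_or] at h
  exact hx (by simp [image_eq_zero_of_notMem_tsupport h.1, image_eq_zero_of_notMem_tsupport h.2])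

omit [FiniteDimensional ℝ X] [MeasurableSpace X] [BorelSpace X] in
lemma Test.lin (hf : Test U f) (hg : Test U g) (s t : ℝ) : Test U fun x => s • f x + t • g x :=
  ⟨(hf.1.const_smul s).add (hg.1.const_smul t),
    (hf.2.1.mono fun x hx h => hx (by simp [h])).add (hg.2.1.mono fun x hx h => hx (by simp [h])),
    tsupport_lin hf.2.2 hg.2.2 s t⟩

omit [FiniteDimensional ℝ X] [MeasurableSpace X] [BorelSpace X] in
lemma test_zero : Test U fun _ => (0 : W) :=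
  ⟨contDiff_const, HasCompactSupport.zero, by simp [tsupport]⟩

omit [FiniteDimensional ℝ X] [MeasurableSpace X] [BorelSpace X] in
lemma Test.mul_on (hU : IsOpen U) (hf : Test U f) {r : X → ℝ} (hr : ContDiffOn ℝ ∞ r U) :
    Test U fun x => r x • f x := by
  refine ⟨contDiff_iff_contDiffAt.2 fun x => ?_, hf.2.1.smul_left,
    (tsupport_smul_subset_right _ _).trans hf.2.2⟩
  by_cases hx : x ∈ tsupport f
  · exact (hr.contDiffAt (hU.mem_nhds (hf.2.2 hx))).smul hf.1.contDiffAt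
  · refine (contDiffAt_const (c := 0)).congr_of_eventuallyEq ?_
    filter_upwards [notMem_tsupport_iff_eventuallyEq.1 hx] with y hy
    simp [hy]

end Test

variable {γ : ι → X → V →L[ℝ] V} {e : ι → X → X} {c : X → V →L[ℝ] V} {U : Set X} {r : X → ℝ}
  {ext : (X → V) → H}

lemma Chart.inn' (h : Chart μ U r γ e c ext) {f g : X → V} (hf : Test U f) (hg : Test U g) :
    ⟪ext f, ext g⟫ = ∫ x, ⟪f x, r x • g x⟫ ∂μ := by
  simp only [h.inn f g hf hg, real_inner_smul_right]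

lemma Chart.lin (h : Chart μ U r γ e c ext) {f g : X → V} (hf : Test U f) (hg : Test U g)
    (s t : ℝ) : ext (fun x => s • f x + t • g x) = s • ext f + t • ext g := by
  have hk := hf.lin hg s t
  have key : ∀ w, Test U w →
      ⟪ext (fun x => s • f x + t • g x) - (s • ext f + t • ext g), ext w⟫ = 0 := by
    intro w hw
    have hw' := (hw.mul_on h.op h.hr).tst
    rw [inner_sub_left, inner_add_left, real_inner_smul_left, real_inner_smul_left, h.inn' hk hw,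
      h.inn' hf hw, h.inn' hg hw, ← integral_const_mul, ← integral_const_mul,
      ← integral_add ((hf.tst.inner_int hw').const_mul _) ((hg.tst.inner_int hw').const_mul _),
      sub_eq_zero]
    simp only [inner_add_left, real_inner_smul_left]
  rw [← sub_eq_zero, ← inner_self_eq_zero (𝕜 := ℝ)]
  rw [inner_sub_right, inner_add_right, real_inner_smul_right,
    real_inner_smul_right, key _ hk, key _ hf, key _ hg]
  simp

lemma Chart.sub (h : Chart μ U r γ e c ext) {f g : X → V} (hf : Test U f) (hg : Test U g) :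
    ext (fun x => f x - g x) = ext f - ext g := by
  simpa [sub_eq_add_neg] using h.lin hf hg 1 (-1)

lemma Chart.sum (h : Chart μ U r γ e c ext) {κ : Type*} (s : Finset κ) (t : κ → ℝ)
    {F : κ → X → V} (hF : ∀ i, Test U (F i)) :
    Test U (fun x => ∑ i ∈ s, t i • F i x) ∧
      ext (fun x => ∑ i ∈ s, t i • F i x) = ∑ i ∈ s, t i • ext (F i) := by
  classical
  induction s using Finset.induction_on with
  | empty =>
    refine ⟨by simpa only [Finset.sum_empty] using test_zero, ?_⟩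
    simpa using h.lin test_zero test_zero 0 0
  | insert i s hi ih =>
    simp only [Finset.sum_insert hi]
    have h1 := (hF i).lin ih.1 (t i) 1
    have h2 := h.lin (hF i) ih.1 (t i) 1
    simp only [one_smul] at h1 h2
    exact ⟨h1, by rw [h2, ih.2]⟩

lemma Chart.bounds (h : Chart μ U r γ e c ext) {K : Set X} (hK : IsCompact K) (hKU : K ⊆ U) :
    ∃ m M, 0 < m ∧ 0 < M ∧ (∀ x ∈ K, m ≤ r x ∧ r x ≤ M) ∧ ∀ f : X → V, Tst f → tsupport f ⊆ K →
      m * ∫ x, ‖f x‖ ^ 2 ∂μ ≤ ‖ext f‖ ^ 2 ∧ ‖ext f‖ ^ 2 ≤ M * ∫ x, ‖f x‖ ^ 2 ∂μ := by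
  obtain ⟨m, hm0, hm⟩ := hK.exists_forall_le' (h.hr.continuousOn.mono hKU)
    (fun x hx => h.pos x (hKU hx))
  obtain ⟨M, hM⟩ := hK.exists_bound_of_continuousOn (h.hr.continuousOn.mono hKU)
  have hM' : ∀ x ∈ K, r x ≤ |M| + 1 := fun x hx => by
    linarith [le_abs_self M, le_abs_self (r x), (Real.norm_eq_abs _).symm.trans_le (hM x hx)]
  refine ⟨m, |M| + 1, hm0, by positivity, fun x hx => ⟨hm x hx, hM' x hx⟩, fun f hf hs => ?_⟩
  have ht := hf.test (hs.trans hKU)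
  have hI : Integrable (fun x => r x * ‖f x‖ ^ 2) μ := by
    simpa only [real_inner_smul_right, real_inner_self_eq_norm_sq] using
      hf.inner_int (μ := μ) (ht.mul_on h.op h.hr).tst
  rw [← real_inner_self_eq_norm_sq, h.inn f f ht ht]
  simp only [real_inner_self_eq_norm_sq, ← integral_const_mul]
  constructor
  · refine integral_mono (hf.sq.const_mul _) hI fun x => ?_
    by_cases hx : x ∈ tsupport f
    · exact mul_le_mul_of_nonneg_right (hm x (hs hx)) (sq_nonneg _)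
    · simp [image_eq_zero_of_notMem_tsupport hx]
  · refine integral_mono hI (hf.sq.const_mul _) fun x => ?_
    by_cases hx : x ∈ tsupport f
    · exact mul_le_mul_of_nonneg_right (hM' x (hs hx)) (sq_nonneg _)
    · simp [image_eq_zero_of_notMem_tsupport hx]

variable [Fintype ι]

omit [MeasurableSpace X] [BorelSpace X] in
lemma Test.pfr (hU : IsOpen U) (hγ : ∀ i, ContDiffOn ℝ ∞ (γ i) U)
    (he : ∀ i, ContDiffOn ℝ ∞ (e i) U) (hc : ContDiffOn ℝ ∞ c U) {f : X → V} (hf : Test U f) :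
    Test U (Pfr γ e c f) := by
  obtain ⟨a, b, c', ha, hc', h1, -⟩ := globalize (r := fun _ => 1) hU contDiffOn_const hγ he hc
    hf.2.1 hf.2.2
  have h2 := Pop_tst (b := b) ha hc' hf.tst
  rw [h1 f le_rfl] at h2
  simp only [one_smul] at h2
  exact Tst.test h2 ((tsupport_Pfr f).trans hf.2.2)

omit [Fintype ι] in
lemma le_of_forall_inner {y : H} {A : ℝ} (hA : 0 ≤ A)
    (h : ∀ s : ℝ, s * ‖y‖ ≤ 1 → 0 ≤ s → s * ‖y‖ ^ 2 ≤ A) : ‖y‖ ≤ A := by
  rcases eq_or_lt_of_le (norm_nonneg y) with h0 | h0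
  · rwa [← h0]
  · have := h ‖y‖⁻¹ (by rw [inv_mul_cancel₀ h0.ne']) (by positivity)
    rwa [sq, ← mul_assoc, inv_mul_cancel₀ h0.ne', one_mul] at this

/-- **Weak solutions are strong solutions** (Friedrichs), in bounded form. -/
theorem Chart.weak_strong [CompleteSpace V] (h : Chart μ U r γ e c ext) {σ : ℝ}
    (hσ : ∀ f g, Test U f → Test U g → ⟪ext (Pfr γ e c f), ext g⟫ = σ * ⟪ext f, ext (Pfr γ e c g)⟫)
    {K : Set X} (hK : IsCompact K) (hKU : K ⊆ U) {u w : H}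
    (hu : u ∈ closure (ext '' {f | Test U f ∧ tsupport f ⊆ K}))
    (hw : ∀ f, Test U f → ⟪u, ext (Pfr γ e c f)⟫ = ⟪w, ext f⟫) :
    ∃ C, ∀ η, 0 < η → ∃ f, Test U f ∧ ‖u - ext f‖ < η ∧ ‖ext (Pfr γ e c f)‖ ≤ C := by
  obtain ⟨θ, hθ, hθU, hθ1, hθ2⟩ := exists_cut hK h.op hKU
  obtain ⟨a, b, c', ha, hc', hP, -⟩ := globalize h.op h.hr h.hγ h.he h.hc hθ.cpt hθU
  obtain ⟨m, M, hm, hM, hrb, hb⟩ := h.bounds hθ.cpt hθU
  obtain ⟨C, hC⟩ := exists_mol μ
  obtain ⟨C₂, hC₂0, hC₂⟩ := comm_Jc (μ := μ) ha hc' b C hθ hθ2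
  have hKθ : K ⊆ tsupport θ := fun x hx => subset_tsupport _ (by simp [hθ1 x hx])
  have hPt : ∀ {f}, Test U f → Test U (Pfr γ e c f) := fun hf => hf.pfr h.op h.hγ h.he h.hc
  have hcut : ∀ {f : X → V} (_ : Tst f), ∫ x, ‖θ x • f x‖ ^ 2 ∂μ ≤ ∫ x, ‖f x‖ ^ 2 ∂μ := by
    intro f hf
    simpa using sq_le_of_le (μ := μ) (M := 1) (g := fun x => θ x • f x) hf fun x => by
      rw [norm_smul, Real.norm_of_nonneg (hθ2 x).1]
      exact mul_le_mul_of_nonneg_right (hθ2 x).2 (norm_nonneg _)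
  have hJs : ∀ ρ (f : X → V), tsupport (Jc μ θ ρ f) ⊆ tsupport θ := fun ρ f =>
    tsupport_smul_subset_left _ _
  have hJ : ∀ {ε ρ} (_ : Mol μ C ε ρ) {f : X → V} (_ : Tst f) (_ : tsupport f ⊆ tsupport θ),
      ‖ext (Jc μ θ ρ f)‖ ≤ √(M / m) * ‖ext f‖ := by
    intro ε ρ hρ f hf hs
    have h1 := (hb _ (Jc_tst (μ := μ) hθ hρ.tst hf) (hJs ρ f)).2
    have h2 : ∫ x, ‖Jc μ θ ρ f x‖ ^ 2 ∂μ ≤ ∫ x, ‖f x‖ ^ 2 ∂μ :=
      (hcut (Jm_tst hρ.tst (hθ.smul hf.sm))).trans ((hρ.sq_le (hθ.smul hf.sm)).trans (hcut hf))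
    have h3 := (hb f hf hs).1
    refine (pow_le_pow_iff_left₀ (norm_nonneg _) (by positivity) two_ne_zero).1 ?_
    rw [mul_pow, Real.sq_sqrt (by positivity), div_mul_eq_mul_div, le_div_iff₀ hm]
    nlinarith [mul_le_mul_of_nonneg_left h2 (mul_pos hM hm).le, mul_le_mul_of_nonneg_left h3 hM.le]
  refine ⟨|σ| * (‖w‖ * √(M / m) + 1 + C₂ * (((‖u‖ + 1) ^ 2 + 1) / m)), fun η hη => ?_⟩
  let s : ℝ := 1 + √(M / m)
  have hs1 : 1 ≤ s := le_add_of_nonneg_right (Real.sqrt_nonneg _)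
  obtain ⟨_, ⟨f₀, ⟨hf₀, hs₀⟩, rfl⟩, hd₀⟩ := Metric.mem_closure_iff.1 hu (η / (4 * s)) (by positivity)
  let G : ℝ := ∫ x, ‖fderiv ℝ f₀ x‖ ^ 2 ∂μ
  have hG : 0 ≤ G := integral_nonneg fun x => sq_nonneg _
  obtain ⟨ρ, hρ⟩ := hC (η / 4 / √(M * G + 1)) (by positivity)
  obtain ⟨C₁, hC₁0, hC₁⟩ := Pop_Jc_le (μ := μ) ha hc' b hθ hρ.tst
  let D : ℝ := √(M * C₁ / m ^ 3) + 1
  have hD : 0 < D := by positivity
  obtain ⟨_, ⟨f, ⟨hf, hs⟩, rfl⟩, hd⟩ := Metric.mem_closure_iff.1 hu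
    (min (η / (4 * s)) (min 1 D⁻¹)) (by positivity)
  rw [dist_eq_norm] at hd hd₀
  rw [lt_min_iff, lt_min_iff] at hd
  have hJt : ∀ {g : X → V}, Tst g → Test U (Jc μ θ ρ g) := fun hg =>
    (Jc_tst hθ hρ.tst hg).test ((hJs ρ _).trans hθU)
  have hθf : ∀ y, θ y • f₀ y = f₀ y := fun y => by
    by_cases hy : f₀ y = 0
    · simp [hy]
    · rw [hθ1 y (hs₀ (subset_tsupport _ hy)), one_smul]
  refine ⟨Jc μ θ ρ f, hJt hf.tst, ?_, ?_⟩
  · have a1 : ‖ext f₀ - ext (Jc μ θ ρ f₀)‖ ≤ η / 4 := by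
      rw [← h.sub hf₀ (hJt hf₀.tst)]
      have hsup : tsupport (fun x => f₀ x - Jc μ θ ρ f₀ x) ⊆ tsupport θ := by
        simpa [sub_eq_add_neg] using tsupport_lin (hs₀.trans hKθ) (hJs ρ f₀) 1 (-1)
      have h1 := (hb _ (hf₀.tst.sub (hJt hf₀.tst).tst) hsup).2
      have h2 : ∫ x, ‖f₀ x - Jc μ θ ρ f₀ x‖ ^ 2 ∂μ ≤ (η / 4 / √(M * G + 1)) ^ 2 * G := by
        refine le_trans (le_of_eq ?_) ((hcut (hf₀.tst.sub (Jm_tst (μ := μ) hρ.tst hf₀.tst))).trans
          (hρ.close hf₀.tst))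
        simp only [Jc, hθf, smul_sub]
      rw [div_pow, Real.sq_sqrt (by positivity)] at h2
      refine (pow_le_pow_iff_left₀ (norm_nonneg _) (by positivity) two_ne_zero).1
        (h1.trans ((mul_le_mul_of_nonneg_left h2 hM.le).trans ?_))
      rw [div_mul_eq_mul_div, ← mul_div_assoc, div_le_iff₀ (by positivity)]
      nlinarith [sq_nonneg (η / 4)]
    have a2 : ‖ext (Jc μ θ ρ f₀) - ext (Jc μ θ ρ f)‖ ≤ √(M / m) * ‖ext f₀ - ext f‖ := by
      rw [← h.sub (hJt hf₀.tst) (hJt hf.tst), ← h.sub hf₀ hf]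
      have hsup : tsupport (fun x => f₀ x - f x) ⊆ tsupport θ := by
        simpa [sub_eq_add_neg] using tsupport_lin (hs₀.trans hKθ) (hs.trans hKθ) 1 (-1)
      refine le_trans (le_of_eq ?_) (hJ hρ (hf₀.tst.sub hf.tst) hsup)
      congr 2; ext x
      simp only [Jc, Jm, smul_sub]
      rw [integral_sub (Jm_int hρ.tst (hθ.smul hf₀.1).cont x) (Jm_int hρ.tst (hθ.smul hf.1).cont x),
        smul_sub]
    have a3 : ‖ext f₀ - ext f‖ ≤ η / (4 * s) + η / (4 * s) := by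
      rw [show ext f₀ - ext f = (u - ext f) - (u - ext f₀) by abel]
      exact (norm_sub_le _ _).trans (add_le_add hd.1.le hd₀.le)
    have a4 : √(M / m) * ‖ext f₀ - ext f‖ ≤ η / 2 := by
      calc √(M / m) * ‖ext f₀ - ext f‖ ≤ s * (η / (4 * s) + η / (4 * s)) :=
            mul_le_mul (le_add_of_nonneg_left zero_le_one) a3 (norm_nonneg _) (by positivity)
        _ = η / 2 := by field_simp; ring
    have a5 : η / (4 * s) ≤ η / 4 := div_le_div_of_nonneg_left hη.le (by norm_num) (by linarith)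
    rw [show u - ext (Jc μ θ ρ f) = (u - ext f₀) + (ext f₀ - ext (Jc μ θ ρ f₀))
      + (ext (Jc μ θ ρ f₀) - ext (Jc μ θ ρ f)) by abel]
    linarith [norm_add₃_le (a := u - ext f₀) (b := ext f₀ - ext (Jc μ θ ρ f₀))
      (c := ext (Jc μ θ ρ f₀) - ext (Jc μ θ ρ f))]
  refine le_of_forall_inner (by positivity) fun t ht ht0 => ?_
  have hy := hPt (hJt hf.tst)
  let g : X → V := fun x => t • Pfr γ e c (Jc μ θ ρ f) x + (0 : ℝ) • Pfr γ e c (Jc μ θ ρ f) x
  have hg : Test U g := hy.lin hy t 0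
  have hgs : tsupport g ⊆ tsupport θ :=
    tsupport_lin ((tsupport_Pfr _).trans (hJs ρ f)) ((tsupport_Pfr _).trans (hJs ρ f)) t 0
  have hge : ext g = t • ext (Pfr γ e c (Jc μ θ ρ f)) := by
    rw [h.lin hy hy t 0, zero_smul, add_zero]
  have hg1 : ‖ext g‖ ≤ 1 := by rwa [hge, norm_smul, Real.norm_of_nonneg ht0]
  have hg2 : ‖ext g‖ ^ 2 ≤ 1 := by nlinarith [norm_nonneg (ext g)]
  have b0 : t * ‖ext (Pfr γ e c (Jc μ θ ρ f))‖ ^ 2
      = σ * ⟪ext (Jc μ θ ρ f), ext (Pfr γ e c g)⟫ := by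
    rw [← hσ _ _ (hJt hf.tst) hg, hge, real_inner_smul_right, real_inner_self_eq_norm_sq]
  have b1 := hC₂ _ ρ hρ f g hf.tst hg.tst
  rw [hP g hgs, hP _ (hJs ρ g), ← h.inn' (hJt hf.tst) (hPt hg), ← h.inn' hf (hPt (hJt hg.tst))]
    at b1
  have b2 : ∫ x, ‖f x‖ ^ 2 ∂μ + ∫ x, ‖g x‖ ^ 2 ∂μ ≤ ((‖u‖ + 1) ^ 2 + 1) / m := by
    rw [le_div_iff₀ hm]
    have h1 := (hb f hf.tst (hs.trans hKθ)).1
    have h2 := (hb g hg.tst hgs).1
    have h3 : ‖ext f‖ ≤ ‖u‖ + 1 := by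
      rw [show ext f = u - (u - ext f) by abel]
      exact (norm_sub_le _ _).trans (add_le_add le_rfl hd.2.1.le)
    nlinarith [pow_le_pow_left₀ (norm_nonneg _) h3 2]
  have b3 : ‖ext (Pfr γ e c (Jc μ θ ρ g))‖ ≤ D := by
    have hy' := hPt (hJt hg.tst)
    have hsy := (tsupport_Pfr (γ := γ) (e := e) (c := c) _).trans (hJs ρ g)
    have h1 := (hb _ hy'.tst hsy).2
    have h2 := hC₁ g hg.tst
    have h3 := (hb g hg.tst hgs).1
    have h4 : ∫ x, ‖Pfr γ e c (Jc μ θ ρ g) x‖ ^ 2 ∂μ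
        ≤ m⁻¹ ^ 2 * ∫ x, ‖Pop a b c' (Jc μ θ ρ g) x‖ ^ 2 ∂μ := by
      refine sq_le_of_le (Pop_tst ha hc' (hJt hg.tst).tst) fun x => ?_
      rw [hP _ (hJs ρ g)]
      by_cases hx : x ∈ tsupport (Jc μ θ ρ g)
      · have := (hrb x (hJs ρ g hx)).1
        rw [norm_smul, Real.norm_of_nonneg (hm.le.trans this), ← mul_assoc]
        exact le_mul_of_one_le_left (norm_nonneg _) ((one_le_inv_mul₀ hm).2 this)
      · simp [Pfr_zero hx]
    have h5 : ∫ x, ‖g x‖ ^ 2 ∂μ ≤ m⁻¹ := by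
      rw [← mul_one m⁻¹, le_inv_mul_iff₀ hm]; exact h3.trans hg2
    have h6 : ‖ext (Pfr γ e c (Jc μ θ ρ g))‖ ^ 2 ≤ M * C₁ / m ^ 3 :=
      calc _ ≤ M * (m⁻¹ ^ 2 * (C₁ * m⁻¹)) := h1.trans (mul_le_mul_of_nonneg_left (h4.trans
            (mul_le_mul_of_nonneg_left (h2.trans (mul_le_mul_of_nonneg_left h5 hC₁0))
              (by positivity))) hM.le)
        _ = _ := by field_simp
    exact (Real.le_sqrt_of_sq_le h6).trans (le_add_of_nonneg_right zero_le_one)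
  have b4 : |⟪u - ext f, ext (Pfr γ e c (Jc μ θ ρ g))⟫| ≤ 1 :=
    (abs_real_inner_le_norm _ _).trans ((mul_le_mul hd.2.2.le b3 (norm_nonneg _)
      (by positivity)).trans (inv_mul_cancel₀ hD.ne').le)
  have b5 : |⟪w, ext (Jc μ θ ρ g)⟫| ≤ ‖w‖ * √(M / m) :=
    (abs_real_inner_le_norm _ _).trans (mul_le_mul_of_nonneg_left ((hJ hρ hg.tst hgs).trans
      (mul_le_of_le_one_right (Real.sqrt_nonneg _) hg1)) (norm_nonneg _))
  rw [inner_sub_left, hw _ (hJt hg.tst)] at b4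
  rw [b0]
  refine (le_abs_self _).trans ?_
  rw [abs_mul]
  refine mul_le_mul_of_nonneg_left ?_ (abs_nonneg _)
  have b6 := mul_le_mul_of_nonneg_left b2 hC₂0
  rw [abs_le] at b1 b4 b5 ⊢
  constructor <;> linarith [b1.1, b1.2, b4.1, b4.2, b5.1, b5.2]

/-- **Rellich and Gårding** in finite rank form. -/
theorem Chart.rellich [FiniteDimensional ℝ V] (h : Chart μ U r γ e c ext)
    (hell : ∀ x ∈ U, ∀ L : X →L[ℝ] V, L ≠ 0 → 0 < ell (fun i => γ i x) fun i => L (e i x))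
    {K : Set X} (hK : IsCompact K) (hKU : K ⊆ U) {δ : ℝ} (hδ : 0 < δ) :
    ∃ (m : ℕ) (F G : Fin m → X → V), (∀ i, Test U (F i)) ∧ (∀ i, Test U (G i)) ∧
      ∀ f, Test U f → tsupport f ⊆ K →
        ‖ext f - ∑ i, ⟪ext (G i), ext f⟫ • ext (F i)‖ ^ 2
          ≤ δ * (‖ext (Pfr γ e c f)‖ ^ 2 + ‖ext f‖ ^ 2) := by
  obtain ⟨a, b, c', ha, hc', hP, hE⟩ := globalize (r := fun _ => 1) h.op contDiffOn_const h.hγ h.he
    h.hc hK hKU
  obtain ⟨C, hC0, hC⟩ := garding (μ := μ) (b := b) ha hc' hK fun x hx L hL => by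
    simpa [hE x hx] using hell x (hKU hx) L hL
  obtain ⟨K', hK', h1, h2⟩ := exists_compact_between hK h.op hKU
  obtain ⟨m, M, hm, hM, -, hb⟩ := h.bounds hK' h2
  obtain ⟨n, F, G, hF, hG, hR⟩ := rellich_flat (μ := μ) (V := V) hK isOpen_interior h1
    (δ := δ * m / (M * (C + 1))) (by positivity)
  have hKK := h1.trans interior_subset
  have hF' : ∀ i, Test K' (F i) := fun i => (hF i).1.test ((hF i).2.trans interior_subset)
  have hFU : ∀ i, Test U (F i) := fun i => (hF i).1.test ((hF' i).2.2.trans h2)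
  have hGU : ∀ i, Test U (G i) := fun i => (hG i).1.test ((hG i).2.trans (interior_subset.trans h2))
  have hr' : ContDiffOn ℝ ∞ (fun x => (r x)⁻¹) U := h.hr.inv fun x hx => (h.pos x hx).ne'
  refine ⟨n, F, fun i x => (r x)⁻¹ • G i x, hFU, fun i => (hGU i).mul_on h.op hr', fun f hf hs => ?_⟩
  have e1 : ∀ i, ⟪ext fun x => (r x)⁻¹ • G i x, ext f⟫ = ∫ y, ⟪G i y, f y⟫ ∂μ := by
    intro i
    rw [h.inn _ _ ((hGU i).mul_on h.op hr') hf]
    congr 1; ext x
    by_cases hx : x ∈ tsupport f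
    · rw [real_inner_smul_left, ← mul_assoc, mul_inv_cancel₀ (h.pos x (hf.2.2 hx)).ne', one_mul]
    · simp [image_eq_zero_of_notMem_tsupport hx]
  simp only [e1]
  obtain ⟨hT, hS⟩ := h.sum Finset.univ (fun i => ∫ y, ⟪G i y, f y⟫ ∂μ) hFU
  rw [← hS, ← h.sub hf hT]
  have hsup : tsupport (fun x => ∑ i, (∫ y, ⟪G i y, f y⟫ ∂μ) • F i x) ⊆ K' := by
    refine closure_minimal (fun x hx => ?_) hK'.isClosed
    by_contra hn
    refine hx (Finset.sum_eq_zero fun i _ => ?_)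
    rw [image_eq_zero_of_notMem_tsupport fun hi => hn ((hF' i).2.2 hi), smul_zero]
  have hsup2 : tsupport (fun x => f x - ∑ i, (∫ y, ⟪G i y, f y⟫ ∂μ) • F i x) ⊆ K' := by
    simpa [sub_eq_add_neg] using tsupport_lin (hs.trans hKK) hsup 1 (-1)
  have t1 := (hb _ (hf.tst.sub hT.tst) hsup2).2
  have t2 := hR f hf.tst hs
  have t3 := hC f hf.tst hs
  rw [hP f hs] at t3
  simp only [one_smul] at t3
  have t4 := (hb f hf.tst (hs.trans hKK)).1
  have t5 := (hb _ (hf.pfr h.op h.hγ h.he h.hc).tst ((tsupport_Pfr f).trans (hs.trans hKK))).1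
  set A := ∫ x, ‖Pfr γ e c f x‖ ^ 2 ∂μ
  set B := ∫ x, ‖f x‖ ^ 2 ∂μ
  have hA : 0 ≤ A := integral_nonneg fun x => sq_nonneg _
  calc _ ≤ M * (δ * m / (M * (C + 1)) * ((C + 1) * (A + B))) :=
        t1.trans (mul_le_mul_of_nonneg_left (t2.trans (mul_le_mul_of_nonneg_left (by linarith)
          (by positivity))) hM.le)
    _ = δ * (m * A + m * B) := by field_simp
    _ ≤ _ := mul_le_mul_of_nonneg_left (add_le_add t5 t4) hδ.le

omit [FiniteDimensional ℝ X] [MeasurableSpace X] [BorelSpace X] in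
/-- Clifford relations and a spanning frame give ellipticity. -/
lemma ell_pos [DecidableEq ι] {g : ι → V →L[ℝ] V} {v : ι → X}
    (hg : ∀ i j p q, ⟪g i p, g j q⟫ + ⟪g j p, g i q⟫ = if i = j then 2 * ⟪p, q⟫ else 0)
    (hv : Submodule.span ℝ (range v) = ⊤) {L : X →L[ℝ] V} (hL : L ≠ 0) :
    0 < ell g fun i => L (v i) := by
  have e : (ell g fun i => L (v i)) = ∑ i, 2 * ‖L (v i)‖ ^ 2 := by
    refine Finset.sum_congr rfl fun i _ => ?_
    have : ∀ j, ⟪g i (L (v i)), g j (L (v j))⟫ + ⟪g i (L (v j)), g j (L (v i))⟫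
        = if i = j then 2 * ⟪L (v i), L (v j)⟫ else 0 := fun j => by
      rw [← hg, real_inner_comm (g j (L (v i)))]
    simp only [this, Finset.sum_ite_eq, Finset.mem_univ, if_true, real_inner_self_eq_norm_sq]
  rw [e]
  obtain ⟨i, hi⟩ : ∃ i, L (v i) ≠ 0 := by
    by_contra hn
    push Not at hn
    exact hL (ContinuousLinearMap.coe_injective (LinearMap.ext_on_range hv fun i => by
      simpa using hn i))
  exact Finset.sum_pos' (fun j _ => by positivity)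
    ⟨i, Finset.mem_univ i, by have := norm_pos_iff.2 hi; positivity⟩

omit [Fintype ι] in
/-- A weak solution that has approximants with bounded image behaves like an element of the core
of a skew operator. -/
lemma inner_eq_zero_of_approx {C : Type*} (j T : C → H) (hT : ∀ s, ⟪j s, T s⟫ = 0) {u w : H}
    (hw : ∀ s, ⟪u, T s⟫ = ⟪w, j s⟫) {M : ℝ} (h : ∀ η, 0 < η → ∃ s, ‖u - j s‖ < η ∧ ‖T s‖ ≤ M) :
    ⟪w, u⟫ = 0 := by
  rw [← abs_nonpos_iff]
  refine le_of_forall_pos_le_add fun ε hε => ?_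
  obtain ⟨s, h1, h2⟩ := h (ε / (‖w‖ + |M| + 1)) (by positivity)
  have e : ⟪w, u⟫ = ⟪w, u - j s⟫ + ⟪u - j s, T s⟫ := by
    rw [inner_sub_right, inner_sub_left, hT, hw]; ring
  have t1 := abs_real_inner_le_norm w (u - j s)
  have t2 := (abs_real_inner_le_norm (u - j s) (T s)).trans
    (mul_le_mul_of_nonneg_left (h2.trans (le_abs_self M)) (norm_nonneg _))
  rw [lt_div_iff₀ (by positivity)] at h1
  rw [e, zero_add]
  refine (abs_add_le _ _).trans ?_
  nlinarith [norm_nonneg (u - j s)]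

end Pool.Agent.Lib.TH
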