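import Mathlib

/-! Flat analysis for first order operators, part 1: averaging lemma and mollifiers. -/

open MeasureTheory Filter Topology Set Metric
open scoped ContDiff Convolution

noncomputable section

namespace Pool.Agent.Lib.TH

/-- weighted Cauchy-Schwarz -/
lemma wcs {α : Type*} [MeasurableSpace α] {ν : Measure α} {k u : α → ℝ} (hk : ∀ a, 0 ≤ k a)
    (h0 : Integrable k ν) (h1 : Integrable (fun a => k a * u a) ν)
    (h2 : Integrable (fun a => k a * u a ^ 2) ν) :
    (∫ a, k a * u a ∂ν) ^ 2 ≤ (∫ a, k a ∂ν) * ∫ a, k a * u a ^ 2 ∂ν := by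
  have h : ∀ t : ℝ, 0 ≤ (∫ a, k a ∂ν) * (t * t) + (-2 * ∫ a, k a * u a ∂ν) * t
      + ∫ a, k a * u a ^ 2 ∂ν := by
    intro t
    have e : (∫ a, k a ∂ν) * (t * t) + (-2 * ∫ a, k a * u a ∂ν) * t + ∫ a, k a * u a ^ 2 ∂ν
        = ∫ a, k a * (u a - t) ^ 2 ∂ν := by
      have h3 : Integrable (fun a => k a * (t * t) + -2 * t * (k a * u a)) ν :=
        (h0.mul_const _).add (h1.const_mul _)
      rw [← integral_mul_const, mul_right_comm, ← integral_const_mul,
        ← integral_add (h0.mul_const _) (h1.const_mul _), ← integral_add h3 h2]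
      congr 1; ext a; ring
    rw [e]
    exact integral_nonneg fun a => mul_nonneg (hk a) (sq_nonneg _)
  have := discrim_le_zero h
  unfold discrim at this
  nlinarith

variable {X : Type*} [NormedAddCommGroup X] [NormedSpace ℝ X] [FiniteDimensional ℝ X]
  [MeasurableSpace X] [BorelSpace X] {μ : Measure X} [μ.IsAddHaarMeasure]

/-- averages of translates do not increase the mean square -/
lemma avg {Ω W : Type*} [MeasurableSpace Ω] {ν : Measure Ω} [SFinite ν] [NormedAddCommGroup W]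
    {k : Ω → ℝ} (hk : ∀ a, 0 ≤ k a) (h0 : Integrable k ν) {s : Ω → X} (hs : Measurable s)
    {G : X → ℝ} (hG : Continuous G) (hc : HasCompactSupport G) {g : X → W}
    (h : ∀ x, ‖g x‖ ≤ ∫ a, k a * G (x - s a) ∂ν) :
    ∫ x, ‖g x‖ ^ 2 ∂μ ≤ (∫ a, k a ∂ν) ^ 2 * ∫ x, G x ^ 2 ∂μ := by
  obtain ⟨M, hM⟩ := hG.bounded_above_of_compact_support hc
  have hG2 : Continuous fun x => G x ^ 2 := hG.pow 2
  have hc2 : HasCompactSupport fun x => G x ^ 2 := hc.comp_left (g := fun t : ℝ => t ^ 2) (by simp)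
  have hI2 : Integrable (fun x => G x ^ 2) μ := hG2.integrable_of_hasCompactSupport hc2
  have hm : ∀ x, Measurable fun a => x - s a := fun x => measurable_const.sub hs
  have h1 : ∀ x, Integrable (fun a => k a * G (x - s a)) ν := fun x =>
    h0.mul_bdd (c := M) (hG.measurable.comp (hm x)).aestronglyMeasurable
      (Eventually.of_forall fun a => hM _)
  have h2 : ∀ x, Integrable (fun a => k a * G (x - s a) ^ 2) ν := fun x =>
    h0.mul_bdd (c := M ^ 2) (hG2.measurable.comp (hm x)).aestronglyMeasurable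
      (Eventually.of_forall fun a => by
        rw [norm_pow]; exact pow_le_pow_left₀ (norm_nonneg _) (hM _) 2)
  have hP : Integrable (Function.uncurry fun x a => k a * G (x - s a) ^ 2) (μ.prod ν) := by
    have hmeas : AEStronglyMeasurable (Function.uncurry fun x a => k a * G (x - s a) ^ 2)
        (μ.prod ν) := by
      refine AEStronglyMeasurable.mul h0.1.comp_snd ?_
      exact (hG2.measurable.comp (measurable_fst.sub (hs.comp measurable_snd))).aestronglyMeasurable
    rw [integrable_prod_iff' hmeas]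
    refine ⟨Eventually.of_forall fun a => (hI2.comp_sub_right (s a)).const_mul (k a), ?_⟩
    have e : (fun a => ∫ x, ‖Function.uncurry (fun x a => k a * G (x - s a) ^ 2) (x, a)‖ ∂μ)
        = fun a => k a * ∫ x, G x ^ 2 ∂μ := by
      ext a
      simp only [Function.uncurry_apply_pair, norm_mul, Real.norm_of_nonneg (hk a),
        Real.norm_of_nonneg (sq_nonneg (G _))]
      rw [integral_const_mul, integral_sub_right_eq_self (fun x => G x ^ 2)]
    rw [e]
    exact h0.mul_const _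
  have hk0 : 0 ≤ ∫ a, k a ∂ν := integral_nonneg hk
  calc ∫ x, ‖g x‖ ^ 2 ∂μ ≤ ∫ x, (∫ a, k a ∂ν) * ∫ a, k a * G (x - s a) ^ 2 ∂ν ∂μ := by
        refine integral_mono_of_nonneg (Eventually.of_forall fun x => sq_nonneg _)
          (hP.integral_prod_left.const_mul _) (Eventually.of_forall fun x => ?_)
        exact (pow_le_pow_left₀ (norm_nonneg _) (h x) 2).trans (wcs hk h0 (h1 x) (h2 x))
    _ = (∫ a, k a ∂ν) * ∫ a, k a * ∫ x, G x ^ 2 ∂μ ∂ν := by
        rw [integral_const_mul, integral_integral_swap hP]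
        congr 2; ext a
        rw [integral_const_mul, integral_sub_right_eq_self (fun x => G x ^ 2)]
    _ = _ := by rw [integral_mul_const]; ring

/-- global test functions -/
structure Tst {W : Type*} [NormedAddCommGroup W] [NormedSpace ℝ W] (f : X → W) : Prop where
  sm : ContDiff ℝ ∞ f
  cpt : HasCompactSupport f

section Tst
variable {W : Type*} [NormedAddCommGroup W] [NormedSpace ℝ W] {f g : X → W}

omit [FiniteDimensional ℝ X] [MeasurableSpace X] [BorelSpace X] in
lemma Tst.cont (h : Tst f) : Continuous f := h.sm.continuous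

omit [FiniteDimensional ℝ X] [MeasurableSpace X] [BorelSpace X] in
lemma Tst.one (h : Tst f) : ContDiff ℝ 1 f := h.sm.of_le (by norm_cast)

omit [FiniteDimensional ℝ X] [MeasurableSpace X] [BorelSpace X] in
lemma Tst.diff (h : Tst f) (x : X) : DifferentiableAt ℝ f x := h.one.differentiable (by simp) x

omit [FiniteDimensional ℝ X] [MeasurableSpace X] [BorelSpace X] in
lemma Tst.fd (h : Tst f) : Tst (fderiv ℝ f) :=
  ⟨h.sm.fderiv_right (m := ∞) (by simp), h.cpt.fderiv ℝ⟩

omit [FiniteDimensional ℝ X] [MeasurableSpace X] [BorelSpace X] in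
lemma Tst.dd (h : Tst f) (b : X) : Tst fun x => fderiv ℝ f x b :=
  ⟨h.fd.sm.clm_apply contDiff_const, h.cpt.fderiv_apply ℝ b⟩

lemma Tst.int (h : Tst f) : Integrable f μ := h.cont.integrable_of_hasCompactSupport h.cpt

omit [FiniteDimensional ℝ X] [MeasurableSpace X] [BorelSpace X] in
lemma Tst.bdd (h : Tst f) : ∃ M, 0 ≤ M ∧ ∀ x, ‖f x‖ ≤ M := by
  obtain ⟨M, hM⟩ := h.cont.bounded_above_of_compact_support h.cpt
  exact ⟨M, (norm_nonneg _).trans (hM 0), hM⟩

omit [FiniteDimensional ℝ X] [MeasurableSpace X] [BorelSpace X] in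
lemma Tst.add (hf : Tst f) (hg : Tst g) : Tst fun x => f x + g x :=
  ⟨hf.sm.add hg.sm, hf.cpt.add hg.cpt⟩

omit [FiniteDimensional ℝ X] [MeasurableSpace X] [BorelSpace X] in
lemma Tst.sub (hf : Tst f) (hg : Tst g) : Tst fun x => f x - g x :=
  ⟨hf.sm.sub hg.sm, hf.cpt.sub hg.cpt⟩

omit [FiniteDimensional ℝ X] [MeasurableSpace X] [BorelSpace X] in
lemma Tst.sum {ι : Type*} (s : Finset ι) {F : ι → X → W} (h : ∀ i, Tst (F i)) :
    Tst fun x => ∑ i ∈ s, F i x := by
  classical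
  induction s using Finset.induction_on with
  | empty => exact ⟨by simpa using contDiff_const, by simp only [Finset.sum_empty]; exact HasCompactSupport.zero⟩
  | insert i s hi ih => simpa only [Finset.sum_insert hi] using (h i).add ih

omit [FiniteDimensional ℝ X] [MeasurableSpace X] [BorelSpace X] in
lemma Tst.smul {θ : X → ℝ} (hθ : Tst θ) (hf : ContDiff ℝ ∞ f) : Tst fun x => θ x • f x :=
  ⟨hθ.sm.smul hf, hθ.cpt.smul_right⟩

omit [FiniteDimensional ℝ X] [MeasurableSpace X] [BorelSpace X] in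
lemma Tst.app {W' : Type*} [NormedAddCommGroup W'] [NormedSpace ℝ W'] {a : X → W →L[ℝ] W'}
    (ha : ContDiff ℝ ∞ a) (hf : Tst f) : Tst fun x => a x (f x) :=
  ⟨ha.clm_apply hf.sm, hf.cpt.mono fun x hx h => hx (by simp [h])⟩

lemma sq_int (h : Continuous f) (hc : HasCompactSupport f) : Integrable (fun x => ‖f x‖ ^ 2) μ := by
  have h1 : Continuous fun x => ‖f x‖ ^ 2 := h.norm.pow 2
  have h2 : HasCompactSupport fun x => ‖f x‖ ^ 2 := hc.mono fun x hx h => hx (by simp [h])
  exact h1.integrable_of_hasCompactSupport h2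

lemma Tst.sq (h : Tst f) : Integrable (fun x => ‖f x‖ ^ 2) μ := sq_int h.cont h.cpt

end Tst

/-- a mollifier of radius `ε` whose first moments of the gradient are at most `C` -/
structure Mol (μ : Measure X) (C ε : ℝ) (ρ : X → ℝ) : Prop where
  tst : Tst ρ
  nn : ∀ z, 0 ≤ ρ z
  even : ∀ z, ρ (-z) = ρ z
  one : ∫ z, ρ z ∂μ = 1
  supp : ∀ z, ρ z ≠ 0 → ‖z‖ ≤ ε
  mom : ∫ z, ‖fderiv ℝ ρ z‖ * ‖z‖ ∂μ ≤ C

variable (μ) in
lemma exists_mol : ∃ C, ∀ ε, 0 < ε → ∃ ρ, Mol μ C ε ρ := by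
  let B : ContDiffBump (0 : X) := ⟨1 / 2, 1, by norm_num, by norm_num⟩
  let r : X → ℝ := B.normed μ
  have hr : Tst r := ⟨B.contDiff_normed, B.hasCompactSupport_normed⟩
  refine ⟨∫ z, ‖fderiv ℝ r z‖ * ‖z‖ ∂μ, fun ε hε => ?_⟩
  let c : ℝ := (ε ^ Module.finrank ℝ X)⁻¹
  have hc : 0 < c := by positivity
  have hcomp : ∀ F : X → ℝ, ∫ z, c * F (ε⁻¹ • z) ∂μ = ∫ z, F z ∂μ := by
    intro F
    rw [integral_const_mul, Measure.integral_comp_inv_smul_of_nonneg μ F hε.le, smul_eq_mul,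
      ← mul_assoc, inv_mul_cancel₀ (by positivity), one_mul]
  refine ⟨fun z => c * r (ε⁻¹ • z), ⟨contDiff_const.mul (hr.sm.comp (contDiff_const_smul _)), ?_⟩,
    fun z => mul_nonneg hc.le (B.nonneg_normed _), fun z => ?_, ?_, fun z hz => ?_, le_of_eq ?_⟩
  · exact (hr.cpt.comp_homeomorph (Homeomorph.smulOfNeZero ε⁻¹ (by positivity))).mul_left
  · simp only [smul_neg, r, B.normed_neg]
  · rw [hcomp r]; exact B.integral_normed
  · have h1 : ε⁻¹ • z ∈ Function.support r := fun h => hz (by simp [h])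
    rw [B.support_normed_eq, mem_ball_zero_iff, norm_smul, norm_inv, Real.norm_of_nonneg hε.le,
      inv_mul_lt_iff₀ hε] at h1
    simpa [B] using h1.le
  · rw [← hcomp fun z => ‖fderiv ℝ r z‖ * ‖z‖]
    congr 1; ext z
    have h1 : HasFDerivAt (fun z => c * r (ε⁻¹ • z)) (c • (ε⁻¹ • fderiv ℝ r (ε⁻¹ • z))) z := by
      have := ((hr.diff (ε⁻¹ • z)).hasFDerivAt.comp z
        ((hasFDerivAt_id z).const_smul ε⁻¹)).const_mul c
      refine this.congr_fderiv ?_
      ext v; simp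
    rw [h1.fderiv, norm_smul, norm_smul, norm_smul, Real.norm_of_nonneg hc.le]
    ring

variable {V : Type*} [NormedAddCommGroup V] [NormedSpace ℝ V]

variable (μ) in
/-- mollification -/
def Jm (ρ : X → ℝ) (f : X → V) (x : X) : V := ∫ z, ρ z • f (x - z) ∂μ

lemma Jm_eq (ρ : X → ℝ) (f : X → V) : Jm μ ρ f = ρ ⋆[ContinuousLinearMap.lsmul ℝ ℝ, μ] f := by
  ext x; rfl

lemma Jm_tst {ρ : X → ℝ} (hρ : Tst ρ) {f : X → V} (hf : Tst f) : Tst (Jm μ ρ f) := by
  rw [Jm_eq]
  exact ⟨hf.cpt.contDiff_convolution_right _ hρ.cont.locallyIntegrable hf.sm,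
    hρ.cpt.convolution _ hf.cpt⟩

lemma Jm_fderiv {ρ : X → ℝ} (hρ : Tst ρ) {f : X → V} (hf : Tst f) (x b : X) :
    fderiv ℝ (Jm μ ρ f) x b = Jm μ ρ (fun y => fderiv ℝ f y b) x := by
  rw [Jm_eq, (hf.cpt.hasFDerivAt_convolution_right _ hρ.cont.locallyIntegrable hf.one x).fderiv,
    convolution_precompR_apply _ hρ.cont.locallyIntegrable hf.fd.cpt hf.fd.cont]
  rfl

lemma Jm_int {ρ : X → ℝ} (hρ : Tst ρ) {f : X → V} (hf : Continuous f) (x : X) :
    Integrable (fun z => ρ z • f (x - z)) μ :=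
  (hρ.cont.smul (hf.comp (continuous_const.sub continuous_id))).integrable_of_hasCompactSupport
    hρ.cpt.smul_right

lemma Jm_sq_le {ρ : X → ℝ} (hρ : Tst ρ) {f : X → V} (hf : Tst f) :
    ∫ x, ‖Jm μ ρ f x‖ ^ 2 ∂μ ≤ (∫ z, ‖ρ z‖ ∂μ) ^ 2 * ∫ x, ‖f x‖ ^ 2 ∂μ := by
  refine avg (s := id) (fun z => norm_nonneg (ρ z)) hρ.int.norm measurable_id hf.cont.norm
    hf.cpt.norm fun x => ?_
  refine (norm_integral_le_integral_norm _).trans (le_of_eq ?_)
  simp only [norm_smul, id]

lemma Mol.sq_le {C ε : ℝ} {ρ : X → ℝ} (h : Mol μ C ε ρ) {f : X → V} (hf : Tst f) :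
    ∫ x, ‖Jm μ ρ f x‖ ^ 2 ∂μ ≤ ∫ x, ‖f x‖ ^ 2 ∂μ := by
  have := Jm_sq_le (μ := μ) h.tst hf
  simpa only [Real.norm_of_nonneg (h.nn _), h.one, one_pow, one_mul] using this

/-- the mollification is close to the function -/
lemma Mol.close [CompleteSpace V] {C ε : ℝ} {ρ : X → ℝ} (h : Mol μ C ε ρ) {f : X → V}
    (hf : Tst f) :
    ∫ x, ‖f x - Jm μ ρ f x‖ ^ 2 ∂μ ≤ ε ^ 2 * ∫ x, ‖fderiv ℝ f x‖ ^ 2 ∂μ := by
  let ν : Measure (X × ℝ) := μ.prod (volume.restrict (Ioc (0 : ℝ) 1))
  have hε : 0 ≤ ε := by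
    by_contra hn
    have : ρ = fun _ => 0 := funext fun z => by
      by_contra hz
      exact hn ((norm_nonneg z).trans (h.supp z hz))
    have h1 := h.one
    simp [this] at h1
  have hk : Integrable (fun a : X × ℝ => ε * ρ a.1) ν :=
    (h.tst.int.comp_fst _).const_mul ε
  have hk1 : ∫ a, ε * ρ a.1 ∂ν = ε := by
    rw [integral_prod _ hk]
    simp [integral_const_mul, h.one]
  have := avg (μ := μ) (ν := ν) (k := fun a : X × ℝ => ε * ρ a.1) (s := fun a => a.2 • a.1)
    (g := fun x => f x - Jm μ ρ f x)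
    (fun a => mul_nonneg hε (h.nn _)) hk (measurable_snd.smul measurable_fst) hf.fd.cont.norm
    hf.fd.cpt.norm (fun x => ?_)
  · rwa [hk1] at this
  obtain ⟨M, -, hM⟩ := hf.fd.bdd
  have hI : Integrable (fun a : X × ℝ => ε * ρ a.1 * ‖fderiv ℝ f (x - a.2 • a.1)‖) ν :=
    hk.mul_bdd (c := M) (Continuous.aestronglyMeasurable (by have := hf.fd.cont; fun_prop))
      (Eventually.of_forall fun a => by simpa using hM _)
  rw [integral_prod _ hI]
  have e : f x - Jm μ ρ f x = ∫ z, ρ z • (f x - f (x - z)) ∂μ := by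
    simp only [smul_sub]
    rw [integral_sub (h.tst.int.smul_const _) (Jm_int h.tst hf.cont x), integral_smul_const, h.one,
      one_smul, Jm]
  rw [e]
  refine (norm_integral_le_integral_norm _).trans (integral_mono_of_nonneg
    (Eventually.of_forall fun z => norm_nonneg _) hI.integral_prod_left
    (Eventually.of_forall fun z => ?_))
  simp only [norm_smul, Real.norm_of_nonneg (h.nn z)]
  rw [integral_const_mul]
  by_cases hz : ρ z = 0
  · simp [hz]
  have hd : ∀ t : ℝ, HasDerivAt (fun t : ℝ => f (x - t • z)) (fderiv ℝ f (x - t • z) (-z)) t := by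
    intro t
    have h1 : HasDerivAt (fun t : ℝ => x - t • z) (-z) t := by
      simpa using ((hasDerivAt_id t).smul_const z).const_sub x
    exact (hf.diff _).hasFDerivAt.comp_hasDerivAt t h1
  have hc : Continuous fun t : ℝ => fderiv ℝ f (x - t • z) := by have := hf.fd.cont; fun_prop
  have h2 := intervalIntegral.integral_eq_sub_of_hasDerivAt (a := 0) (b := 1) (fun t _ => hd t)
    ((hc.clm_apply continuous_const).intervalIntegrable _ _)
  simp only [one_smul, zero_smul, sub_zero] at h2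
  have h3 : ‖f x - f (x - z)‖ ≤ ε * ∫ t in Ioc (0 : ℝ) 1, ‖fderiv ℝ f (x - t • z)‖ := by
    rw [norm_sub_rev, ← h2, intervalIntegral.integral_of_le zero_le_one, ← integral_const_mul]
    refine (norm_integral_le_integral_norm _).trans (integral_mono_of_nonneg
      (Eventually.of_forall fun z => norm_nonneg _)
      ((hc.norm.integrableOn_Icc.mono_set Ioc_subset_Icc_self).const_mul _)
      (Eventually.of_forall fun t => ?_))
    refine (ContinuousLinearMap.le_opNorm _ _).trans ?_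
    rw [norm_neg, mul_comm]
    exact mul_le_mul_of_nonneg_right (h.supp z hz) (norm_nonneg _)
  calc ρ z * ‖f x - f (x - z)‖ ≤ ρ z * (ε * ∫ t in Ioc (0 : ℝ) 1, ‖fderiv ℝ f (x - t • z)‖) :=
        mul_le_mul_of_nonneg_left h3 (h.nn z)
    _ = _ := by ring

end Pool.Agent.Lib.TH
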