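import Pool.Agent.Lib.TH.Flat1

/-! Flat analysis for first order operators, part 2: the Friedrichs commutator estimate. -/

open MeasureTheory Filter Topology Set Metric
open scoped ContDiff Convolution RealInnerProductSpace

noncomputable section

namespace Pool.Agent.Lib.TH

variable {X : Type*} [NormedAddCommGroup X] [NormedSpace ℝ X] [FiniteDimensional ℝ X]
  [MeasurableSpace X] [BorelSpace X] {μ : Measure X} [μ.IsAddHaarMeasure]

section Normed
variable {V : Type*} [NormedAddCommGroup V] [NormedSpace ℝ V]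

omit [FiniteDimensional ℝ X] [MeasurableSpace X] [BorelSpace X] in
lemma hasFDerivAt_refl {W : Type*} [NormedAddCommGroup W] [NormedSpace ℝ W] {f : X → W}
    (hf : ContDiff ℝ ∞ f) (x z : X) :
    HasFDerivAt (fun z => f (x - z)) (-fderiv ℝ f (x - z)) z := by
  have h1 : DifferentiableAt ℝ f (x - z) := hf.differentiable (by simp) _
  refine (h1.hasFDerivAt.comp z ((hasFDerivAt_id z).const_sub x)).congr_fderiv ?_
  ext v; simp

/-- integration by parts against a reflected test function -/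
lemma ibp_refl {F : X → V →L[ℝ] V} (hF : Tst F) {f : X → V} (hf : ContDiff ℝ ∞ f) (x b : X) :
    ∫ z, F z (fderiv ℝ f (x - z) b) ∂μ = ∫ z, fderiv ℝ F z b (f (x - z)) ∂μ := by
  have hc : Continuous fun z => f (x - z) := hf.continuous.comp (continuous_const.sub continuous_id)
  have hc' : Continuous fun z => fderiv ℝ f (x - z) :=
    (hf.continuous_fderiv (by simp)).comp (continuous_const.sub continuous_id)
  have hI : ∀ {G : X → V →L[ℝ] V} (_ : Tst G) {g : X → V} (_ : Continuous g),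
      Integrable (fun z => G z (g z)) μ := fun hG g hg =>
    (hG.cont.clm_apply hg).integrable_of_hasCompactSupport
      (hG.cpt.mono fun z hz h => hz (by simp [h]))
  have := integral_bilinear_hasFDerivAt_right_eq_neg_left_of_integrable (μ := μ)
    (B := ContinuousLinearMap.id ℝ (V →L[ℝ] V)) (f := F) (f' := fderiv ℝ F)
    (g := fun z => f (x - z)) (g' := fun z => -fderiv ℝ f (x - z)) (v := b)
    (hI (hF.dd b) hc) (hI hF (hc'.neg.clm_apply continuous_const)) (hI hF hc)
    (fun z _ => (hF.diff z).hasFDerivAt) (fun z _ => hasFDerivAt_refl hf x z)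
  simpa only [ContinuousLinearMap.id_apply, ContinuousLinearMap.neg_apply, map_neg, integral_neg,
    neg_inj] using this

/-- the derivative of a mollification, put on the mollifier -/
lemma Jm_fderiv' {ρ : X → ℝ} (hρ : Tst ρ) {f : X → V} (hf : Tst f) (x b : X) :
    fderiv ℝ (Jm μ ρ f) x b = Jm μ (fun z => fderiv ℝ ρ z b) f x := by
  rw [Jm_fderiv hρ hf]
  have h := ibp_refl (μ := μ) (F := fun z => ρ z • ContinuousLinearMap.id ℝ V)
    (hρ.smul contDiff_const) hf.sm x b
  simp only [ContinuousLinearMap.smul_apply, ContinuousLinearMap.id_apply] at h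
  rw [Jm, h, Jm]
  congr 1; ext z
  rw [((hρ.diff z).hasFDerivAt.smul_const (ContinuousLinearMap.id ℝ V)).fderiv]
  simp

/-- first order operator with constant directions -/
def Pop {ι : Type*} [Fintype ι] (a : ι → X → V →L[ℝ] V) (b : ι → X) (c : X → V →L[ℝ] V)
    (f : X → V) (x : X) : V :=
  ∑ j, a j x (fderiv ℝ f x (b j)) + c x (f x)

variable {ι : Type*} [Fintype ι] {a : ι → X → V →L[ℝ] V} {b : ι → X} {c : X → V →L[ℝ] V}

omit [FiniteDimensional ℝ X] [MeasurableSpace X] [BorelSpace X] in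
lemma Pop_tst (ha : ∀ j, Tst (a j)) (hc : Tst c) {f : X → V} (hf : Tst f) : Tst (Pop a b c f) :=
  (Tst.sum _ fun j => (hf.dd (b j)).app (ha j).sm).add (hf.app hc.sm)

/-- Friedrichs: the commutator with the mollification is bounded uniformly in the radius -/
lemma comm_le [CompleteSpace V] (ha : ∀ j, Tst (a j)) (hc : Tst c) (b : ι → X) (C : ℝ) :
    ∃ C₁, ∀ ε ρ, Mol μ C ε ρ → ∀ f : X → V, Tst f →
      ∫ x, ‖Jm μ ρ (Pop a b c f) x - Pop a b c (Jm μ ρ f) x‖ ^ 2 ∂μ ≤ C₁ * ∫ x, ‖f x‖ ^ 2 ∂μ := by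
  choose L hL0 hL using fun j => (ha j).fd.bdd
  obtain ⟨M, hM0, hM⟩ := hc.bdd
  let B : ℝ := ∑ j, L j * ‖b j‖
  have hB : 0 ≤ B := Finset.sum_nonneg fun j _ => mul_nonneg (hL0 j) (norm_nonneg _)
  refine ⟨(B * C + (B + 2 * M)) ^ 2, fun ε ρ h f hf => ?_⟩
  have hρ := h.tst
  let k : X → ℝ := fun z => B * (‖fderiv ℝ ρ z‖ * ‖z‖) + (B + 2 * M) * ρ z
  have hk0 : ∀ z, 0 ≤ k z := fun z => by have := h.nn z; positivity
  have hi1 : Integrable (fun z => ‖fderiv ℝ ρ z‖ * ‖z‖) μ :=
    (hρ.fd.cont.norm.mul continuous_norm).integrable_of_hasCompactSupport hρ.fd.cpt.norm.mul_right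
  have hk : Integrable k μ := (hi1.const_mul _).add (hρ.int.const_mul _)
  have hk1 : ∫ z, k z ∂μ ≤ B * C + (B + 2 * M) := by
    rw [integral_add (hi1.const_mul _) (hρ.int.const_mul _), integral_const_mul, integral_const_mul,
      h.one, mul_one]
    linarith [mul_le_mul_of_nonneg_left h.mom hB]
  refine (avg (s := id) hk0 hk measurable_id hf.cont.norm hf.cpt.norm fun x => ?_).trans
    (mul_le_mul_of_nonneg_right (pow_le_pow_left₀ (integral_nonneg hk0) hk1 2)
      (integral_nonneg fun x => sq_nonneg _))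
  have hsub : ContDiff ℝ ∞ fun z : X => x - z := contDiff_const.sub contDiff_id
  let F : ι → X → V →L[ℝ] V := fun j z => ρ z • (a j (x - z) - a j x)
  have hF : ∀ j, Tst (F j) := fun j => hρ.smul (((ha j).sm.comp hsub).sub contDiff_const)
  let G : X → V →L[ℝ] V := fun z => ρ z • (c (x - z) - c x)
  have hG : Tst G := hρ.smul ((hc.sm.comp hsub).sub contDiff_const)
  have hI : ∀ {G : X → V →L[ℝ] V} (_ : Tst G) {g : X → V} (_ : Continuous g),
      Integrable (fun z => G z (g (x - z))) μ := fun hG g hg =>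
    (hG.cont.clm_apply (hg.comp hsub.continuous)).integrable_of_hasCompactSupport
      (hG.cpt.mono fun z hz h => hz (by simp [h]))
  have e1 : Pop a b c (Jm μ ρ f) x
      = ∫ z, (∑ j, a j x (ρ z • fderiv ℝ f (x - z) (b j)) + c x (ρ z • f (x - z))) ∂μ := by
    have i1 : ∀ j, Integrable (fun z => a j x (ρ z • fderiv ℝ f (x - z) (b j))) μ := fun j =>
      (a j x).integrable_comp (Jm_int hρ (hf.dd (b j)).cont x)
    rw [integral_add (integrable_finset_sum _ fun j _ => i1 j)
      ((c x).integrable_comp (Jm_int hρ hf.cont x)), integral_finset_sum _ fun j _ => i1 j,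
      (c x).integral_comp_comm (Jm_int hρ hf.cont x), Pop]
    congr 1
    refine Finset.sum_congr rfl fun j _ => ?_
    rw [(a j x).integral_comp_comm (Jm_int hρ (hf.dd (b j)).cont x), Jm_fderiv hρ hf]
    rfl
  have e2 : Jm μ ρ (Pop a b c f) x - Pop a b c (Jm μ ρ f) x
      = ∫ z, (∑ j, F j z (fderiv ℝ f (x - z) (b j)) + G z (f (x - z))) ∂μ := by
    rw [e1, Jm, ← integral_sub (Jm_int hρ (Pop_tst ha hc hf).cont x)]
    · congr 1; ext z
      simp only [Pop, F, G, smul_add, Finset.smul_sum, map_smul, ContinuousLinearMap.smul_apply,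
        ContinuousLinearMap.sub_apply, smul_sub, Finset.sum_sub_distrib]
      abel
    · exact (integrable_finset_sum _ fun j _ =>
        (a j x).integrable_comp (Jm_int hρ (hf.dd (b j)).cont x)).add
        ((c x).integrable_comp (Jm_int hρ hf.cont x))
  have e3 : Jm μ ρ (Pop a b c f) x - Pop a b c (Jm μ ρ f) x
      = ∫ z, (∑ j, fderiv ℝ (F j) z (b j) (f (x - z)) + G z (f (x - z))) ∂μ := by
    have i1 := fun j => hI (hF j) (hf.dd (b j)).cont
    have i2 := fun j => hI ((hF j).dd (b j)) hf.cont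
    rw [e2, integral_add (integrable_finset_sum _ fun j _ => i1 j) (hI hG hf.cont),
      integral_add (integrable_finset_sum _ fun j _ => i2 j) (hI hG hf.cont),
      integral_finset_sum _ fun j _ => i1 j, integral_finset_sum _ fun j _ => i2 j]
    congr 1
    exact Finset.sum_congr rfl fun j _ => ibp_refl (hF j) hf.sm x (b j)
  rw [e3]
  refine (norm_integral_le_integral_norm _).trans (integral_mono_of_nonneg
    (Eventually.of_forall fun z => norm_nonneg _) ?_ (Eventually.of_forall fun z => ?_))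
  · obtain ⟨N, -, hN⟩ := hf.bdd
    exact hk.mul_bdd (c := N) (hf.cont.comp hsub.continuous).norm.aestronglyMeasurable
      (Eventually.of_forall fun z => by simpa using hN _)
  have h1 : ∀ j, ‖fderiv ℝ (F j) z (b j)‖ ≤ L j * ‖b j‖ * (‖fderiv ℝ ρ z‖ * ‖z‖ + ρ z) := by
    intro j
    have hd := (hρ.diff z).hasFDerivAt.smul
      ((hasFDerivAt_refl (ha j).sm x z).sub_const (a j x))
    have hl : ‖a j (x - z) - a j x‖ ≤ L j * ‖z‖ := by
      have := Convex.norm_image_sub_le_of_norm_fderiv_le (𝕜 := ℝ) (f := a j) (s := univ)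
        (fun y _ => (ha j).diff y) (fun y _ => hL j y) convex_univ (mem_univ x) (mem_univ (x - z))
      simpa using this
    have hfd : fderiv ℝ (F j) z (b j) = ρ z • (-fderiv ℝ (a j) (x - z) (b j))
        + fderiv ℝ ρ z (b j) • (a j (x - z) - a j x) := by
      rw [show F j = (ρ • fun z => a j (x - z) - a j x) from rfl, hd.fderiv]; simp
    rw [hfd]
    refine (norm_add_le _ _).trans ?_
    rw [norm_smul, norm_smul, norm_neg, Real.norm_of_nonneg (h.nn z)]
    have t1 : ‖fderiv ℝ (a j) (x - z) (b j)‖ ≤ L j * ‖b j‖ :=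
      (ContinuousLinearMap.le_opNorm _ _).trans
        (mul_le_mul_of_nonneg_right (hL j _) (norm_nonneg _))
    have t2 : ‖fderiv ℝ ρ z (b j)‖ ≤ ‖fderiv ℝ ρ z‖ * ‖b j‖ := ContinuousLinearMap.le_opNorm _ _
    have t3 := mul_le_mul_of_nonneg_left t1 (h.nn z)
    have t4 := mul_le_mul t2 hl (norm_nonneg _) (by positivity)
    nlinarith
  have h2 : ‖G z‖ ≤ 2 * M * ρ z := by
    simp only [G, norm_smul, Real.norm_of_nonneg (h.nn z)]
    have := (norm_sub_le (c (x - z)) (c x)).trans (add_le_add (hM _) (hM _))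
    nlinarith [h.nn z]
  refine (norm_add_le _ _).trans ?_
  have h3 : ‖∑ j, fderiv ℝ (F j) z (b j) (f (x - z))‖
      ≤ B * (‖fderiv ℝ ρ z‖ * ‖z‖ + ρ z) * ‖f (x - z)‖ := by
    refine (norm_sum_le _ _).trans ?_
    simp only [B, Finset.sum_mul]
    exact Finset.sum_le_sum fun j _ => (ContinuousLinearMap.le_opNorm _ _).trans
      (mul_le_mul_of_nonneg_right (h1 j) (norm_nonneg _))
  have h4 : ‖G z (f (x - z))‖ ≤ 2 * M * ρ z * ‖f (x - z)‖ :=
    (ContinuousLinearMap.le_opNorm _ _).trans (mul_le_mul_of_nonneg_right h2 (norm_nonneg _))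
  simp only [k, id]
  nlinarith

/-- the operator applied to a mollification is bounded in the mean square -/
lemma Pop_Jm_le (ha : ∀ j, Tst (a j)) (hc : Tst c) (b : ι → X) {ρ : X → ℝ} (hρ : Tst ρ) :
    ∃ C₁, ∀ f : X → V, Tst f →
      ∫ x, ‖Pop a b c (Jm μ ρ f) x‖ ^ 2 ∂μ ≤ C₁ * ∫ x, ‖f x‖ ^ 2 ∂μ := by
  choose L hL0 hL using fun j => (ha j).bdd
  obtain ⟨M, hM0, hM⟩ := hc.bdd
  let k : X → ℝ := fun z => ∑ j, L j * ‖fderiv ℝ ρ z (b j)‖ + M * ‖ρ z‖
  have hk0 : ∀ z, 0 ≤ k z := fun z =>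
    add_nonneg (Finset.sum_nonneg fun j _ => mul_nonneg (hL0 j) (norm_nonneg _)) (by positivity)
  have hk : Integrable k μ := (integrable_finset_sum _ fun j _ =>
    (hρ.dd (b j)).int.norm.const_mul _).add (hρ.int.norm.const_mul _)
  refine ⟨(∫ z, k z ∂μ) ^ 2, fun f hf =>
    avg (s := id) hk0 hk measurable_id hf.cont.norm hf.cpt.norm fun x => ?_⟩
  have hJ : ∀ {r : X → ℝ} (_ : Tst r), ‖Jm μ r f x‖ ≤ ∫ z, ‖r z‖ * ‖f (x - z)‖ ∂μ := fun _ =>
    (norm_integral_le_integral_norm _).trans (le_of_eq (by simp only [norm_smul]))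
  have hI : ∀ {r : X → ℝ} (_ : Tst r), Integrable (fun z => ‖r z‖ * ‖f (x - z)‖) μ := fun hr => by
    simpa only [norm_smul] using (Jm_int (μ := μ) hr hf.cont x).norm
  have e : ∫ z, k z * ‖f (x - id z)‖ ∂μ = ∑ j, L j * ∫ z, ‖fderiv ℝ ρ z (b j)‖ * ‖f (x - z)‖ ∂μ
      + M * ∫ z, ‖ρ z‖ * ‖f (x - z)‖ ∂μ := by
    simp only [← integral_const_mul]
    rw [← integral_finset_sum _ fun j _ => (hI (hρ.dd (b j))).const_mul _,
      ← integral_add (integrable_finset_sum _ fun j _ => (hI (hρ.dd (b j))).const_mul _)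
        ((hI hρ).const_mul _)]
    congr 1; ext z
    simp only [k, id, add_mul, Finset.sum_mul, mul_assoc]
  rw [e, Pop]
  refine (norm_add_le _ _).trans (add_le_add ((norm_sum_le _ _).trans
    (Finset.sum_le_sum fun j _ => ?_)) ?_)
  · rw [Jm_fderiv' hρ hf]
    exact (ContinuousLinearMap.le_opNorm _ _).trans
      (mul_le_mul (hL j x) (hJ (hρ.dd (b j))) (norm_nonneg _) (hL0 j))
  · exact (ContinuousLinearMap.le_opNorm _ _).trans
      (mul_le_mul (hM x) (hJ hρ) (norm_nonneg _) hM0)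

end Normed

variable {V : Type*} [NormedAddCommGroup V] [InnerProductSpace ℝ V] [CompleteSpace V]

/-- mollification with an even kernel is symmetric -/
lemma Jm_symm {ρ : X → ℝ} (hρ : Tst ρ) (he : ∀ z, ρ (-z) = ρ z) {f g : X → V} (hf : Tst f)
    (hg : Tst g) : ∫ x, ⟪Jm μ ρ f x, g x⟫ ∂μ = ∫ x, ⟪f x, Jm μ ρ g x⟫ ∂μ := by
  have hJ : ∀ {f : X → V} (_ : Tst f) x, Jm μ ρ f x = ∫ y, ρ (x - y) • f y ∂μ := fun {f} _ x => by
    rw [Jm, ← integral_sub_left_eq_self _ μ x]; simp
  have hI : ∀ {f : X → V} (_ : Tst f) x, Integrable (fun y => ρ (x - y) • f y) μ := fun hf x =>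
    ((hρ.cont.comp (continuous_const.sub continuous_id)).smul hf.cont
      ).integrable_of_hasCompactSupport hf.cpt.smul_left
  have hP : Integrable (Function.uncurry fun x y => ρ (x - y) * ⟪f y, g x⟫) (μ.prod μ) := by
    obtain ⟨M, -, hM⟩ := hρ.bdd
    refine Integrable.bdd_mul (c := M) ?_ (hρ.cont.comp (by fun_prop)).aestronglyMeasurable
      (Eventually.of_forall fun p => hM _)
    refine ((hg.int (μ := μ)).norm.mul_prod (hf.int (μ := μ)).norm).mono'
      ((hf.cont.comp continuous_snd).inner (hg.cont.comp continuous_fst)).aestronglyMeasurable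
      (Eventually.of_forall fun p => ?_)
    rw [mul_comm]; exact norm_inner_le_norm _ _
  calc ∫ x, ⟪Jm μ ρ f x, g x⟫ ∂μ = ∫ x, ∫ y, ρ (x - y) * ⟪f y, g x⟫ ∂μ ∂μ := by
        congr 1; ext x
        rw [hJ hf, real_inner_comm, ← integral_inner (hI hf x)]
        simp only [real_inner_smul_right, real_inner_comm]
    _ = ∫ y, ∫ x, ρ (x - y) * ⟪f y, g x⟫ ∂μ ∂μ := integral_integral_swap hP
    _ = _ := by
        congr 1; ext y
        rw [hJ hg, ← integral_inner (hI hg y)]
        congr 1; ext x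
        rw [real_inner_smul_right, ← he (x - y), neg_sub]

end Pool.Agent.Lib.TH
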