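import Pool.Agent.Lib.TH.Flat2

/-! Flat analysis for first order operators, part 3: Gårding and Rellich. -/

open MeasureTheory Filter Topology Set Metric
open scoped ContDiff RealInnerProductSpace Manifold

noncomputable section

namespace Pool.Agent.Lib.TH

variable {X : Type*} [NormedAddCommGroup X] [NormedSpace ℝ X] [FiniteDimensional ℝ X]
  [MeasurableSpace X] [BorelSpace X] {μ : Measure X} [μ.IsAddHaarMeasure]
  {V : Type*} [NormedAddCommGroup V] [InnerProductSpace ℝ V]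

lemma inner_int {f g : X → V} (hf : Continuous f) (hg : Continuous g) (hc : HasCompactSupport g) :
    Integrable (fun x => ⟪f x, g x⟫) μ :=
  (hf.inner hg).integrable_of_hasCompactSupport (hc.mono fun x hx h => hx (by simp [h]))

lemma Tst.inner_int {f g : X → V} (hf : Tst f) (hg : Tst g) : Integrable (fun x => ⟪f x, g x⟫) μ :=
  TH.inner_int hf.cont hg.cont hg.cpt

lemma ibp_inner {f g : X → V} (hf : Tst f) (hg : Tst g) (u : X) :
    ∫ x, ⟪f x, fderiv ℝ g x u⟫ ∂μ = -∫ x, ⟪fderiv ℝ f x u, g x⟫ ∂μ :=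
  integral_bilinear_fderiv_right_eq_neg_left_of_integrable (μ := μ) (B := innerSL ℝ) (v := u)
    ((hf.dd u).inner_int hg) (hf.inner_int (hg.dd u)) (hf.inner_int hg)
    (fun x _ => hf.diff x) (fun x _ => hg.diff x)

omit [FiniteDimensional ℝ X] [MeasurableSpace X] [BorelSpace X] in
lemma fderiv_app {A : X → V →L[ℝ] V} (hA : Tst A) {f : X → V} (hf : Tst f) (x u : X) :
    fderiv ℝ (fun x => A x (f x)) x u = A x (fderiv ℝ f x u) + fderiv ℝ A x u (f x) := by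
  rw [fderiv_clm_apply (hA.diff x) (hf.diff x)]; simp

omit [FiniteDimensional ℝ X] [MeasurableSpace X] [BorelSpace X] in
lemma Tst.dd_comm {f : X → V} (h : Tst f) (x u v : X) :
    fderiv ℝ (fun y => fderiv ℝ f y v) x u = fderiv ℝ (fun y => fderiv ℝ f y u) x v := by
  have hs := (h.sm.contDiffAt (x := x)).isSymmSndFDerivAt (by simp; norm_cast)
  have e : ∀ v w, fderiv ℝ (fun y => fderiv ℝ f y v) x w = fderiv ℝ (fderiv ℝ f) x w v := by
    intro v w
    rw [fderiv_clm_apply (h.fd.diff x) (differentiableAt_const v)]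
    simp
  rw [e, e, hs.eq]

/-- exchanging the two derivatives costs a first order term -/
lemma swap_le {A B : X → V →L[ℝ] V} (hA : Tst A) (hB : Tst B) (u v : X) :
    ∃ C, 0 ≤ C ∧ ∀ f : X → V, Tst f →
      ∫ x, ⟪A x (fderiv ℝ f x v), B x (fderiv ℝ f x u)⟫ ∂μ
        - ∫ x, ⟪A x (fderiv ℝ f x u), B x (fderiv ℝ f x v)⟫ ∂μ
        ≤ C * ∫ x, ‖f x‖ * ‖fderiv ℝ f x‖ ∂μ := by
  obtain ⟨MA, hA0, hMA⟩ := hA.bdd
  obtain ⟨MB, hB0, hMB⟩ := hB.bdd
  obtain ⟨LA, hA1, hLA⟩ := hA.fd.bdd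
  obtain ⟨LB, hB1, hLB⟩ := hB.fd.bdd
  let c : ℝ := (MA * LB + LA * MB) * (‖u‖ * ‖v‖)
  refine ⟨2 * c, by positivity, fun f hf => ?_⟩
  have hI : Integrable (fun x => ‖f x‖ * ‖fderiv ℝ f x‖) μ :=
    (hf.cont.norm.mul hf.fd.cont.norm).integrable_of_hasCompactSupport hf.cpt.norm.mul_right
  have key : ∀ u v : X, |∫ x, ⟪A x (fderiv ℝ f x u), B x (fderiv ℝ f x v)⟫ ∂μ
      + ∫ x, ⟪A x (f x), B x (fderiv ℝ (fun y => fderiv ℝ f y v) x u)⟫ ∂μ|
      ≤ (MA * LB + LA * MB) * (‖u‖ * ‖v‖) * ∫ x, ‖f x‖ * ‖fderiv ℝ f x‖ ∂μ := by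
    intro u v
    have h1 := ibp_inner (μ := μ) (hf.app hA.sm) ((hf.dd v).app hB.sm) u
    simp only [fderiv_app hA hf, fderiv_app hB (hf.dd v), inner_add_left, inner_add_right] at h1
    have i1 := (hf.app hA.sm).inner_int (μ := μ) (((hf.dd v).dd u).app hB.sm)
    have i2 := (hf.app hA.sm).inner_int (μ := μ) ((hf.dd v).app (hB.dd u).sm)
    have i3 := ((hf.dd u).app hA.sm).inner_int (μ := μ) ((hf.dd v).app hB.sm)
    have i4 := (hf.app (hA.dd u).sm).inner_int (μ := μ) ((hf.dd v).app hB.sm)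
    rw [integral_add i1 i2, integral_add i3 i4] at h1
    have e : ∫ x, ⟪A x (fderiv ℝ f x u), B x (fderiv ℝ f x v)⟫ ∂μ
        + ∫ x, ⟪A x (f x), B x (fderiv ℝ (fun y => fderiv ℝ f y v) x u)⟫ ∂μ
        = -∫ x, (⟪A x (f x), fderiv ℝ B x u (fderiv ℝ f x v)⟫
          + ⟪fderiv ℝ A x u (f x), B x (fderiv ℝ f x v)⟫) ∂μ := by
      rw [integral_add i2 i4]; linarith
    rw [e, abs_neg, ← integral_const_mul]
    refine (abs_integral_le_integral_abs).trans (integral_mono (i2.add i4).abs (hI.const_mul _)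
      fun x => ?_)
    have a1 : ‖A x (f x)‖ ≤ MA * ‖f x‖ := (A x).le_of_opNorm_le (hMA x) _
    have a2 : ‖fderiv ℝ f x v‖ ≤ ‖fderiv ℝ f x‖ * ‖v‖ := ContinuousLinearMap.le_opNorm _ _
    have a3 : ‖fderiv ℝ B x u (fderiv ℝ f x v)‖ ≤ LB * ‖u‖ * (‖fderiv ℝ f x‖ * ‖v‖) :=
      (ContinuousLinearMap.le_opNorm _ _).trans (mul_le_mul
        ((fderiv ℝ B x).le_of_opNorm_le (hLB x) _) a2 (norm_nonneg _) (by positivity))
    have a4 : ‖fderiv ℝ A x u (f x)‖ ≤ LA * ‖u‖ * ‖f x‖ :=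
      (fderiv ℝ A x u).le_of_opNorm_le ((fderiv ℝ A x).le_of_opNorm_le (hLA x) _) _
    have a5 : ‖B x (fderiv ℝ f x v)‖ ≤ MB * (‖fderiv ℝ f x‖ * ‖v‖) :=
      ((B x).le_of_opNorm_le (hMB x) _).trans (mul_le_mul_of_nonneg_left a2 hB0)
    have b1 := (abs_real_inner_le_norm _ _).trans (mul_le_mul a1 a3 (norm_nonneg _) (by positivity))
    have b2 := (abs_real_inner_le_norm _ _).trans (mul_le_mul a4 a5 (norm_nonneg _) (by positivity))
    refine (abs_add_le _ _).trans ((add_le_add b1 b2).trans (le_of_eq ?_))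
    ring
  have k1 := abs_le.1 (key u v)
  have k2 := abs_le.1 (key v u)
  simp only [hf.dd_comm _ u v] at k1
  rw [mul_comm ‖v‖] at k2
  simp only [c]
  linarith [k1.1, k2.2]

variable {ι : Type*} [Fintype ι] {a : ι → X → V →L[ℝ] V} {b : ι → X} {c : X → V →L[ℝ] V}

/-- the symmetrised principal form -/
def ell (a : ι → V →L[ℝ] V) (p : ι → V) : ℝ :=
  ∑ j, ∑ k, (⟪a j (p j), a k (p k)⟫ + ⟪a j (p k), a k (p j)⟫)

/-- Gårding's inequality -/
lemma garding [FiniteDimensional ℝ V] (ha : ∀ j, Tst (a j)) (hc : Tst c) {K : Set X}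
    (hK : IsCompact K)
    (he : ∀ x ∈ K, ∀ L : X →L[ℝ] V, L ≠ 0 → 0 < ell (fun j => a j x) fun j => L (b j)) :
    ∃ C, 0 ≤ C ∧ ∀ f : X → V, Tst f → tsupport f ⊆ K →
      ∫ x, ‖fderiv ℝ f x‖ ^ 2 ∂μ ≤ C * (∫ x, ‖Pop a b c f x‖ ^ 2 ∂μ + ∫ x, ‖f x‖ ^ 2 ∂μ) := by
  obtain ⟨m, hm0, hm⟩ := (hK.prod (isCompact_sphere (0 : X →L[ℝ] V) 1)).exists_forall_le'
    (f := fun q => ell (fun j => a j q.1) fun j => q.2 (b j)) (a := 0)
    (Continuous.continuousOn (by
      have := fun j => (ha j).cont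
      unfold ell
      fun_prop))
    (by
      rintro ⟨x, L⟩ ⟨hx, hL⟩
      refine he x hx L fun h => ?_
      have h2 : L ∈ sphere (0 : X →L[ℝ] V) 1 := hL
      rw [h, mem_sphere, dist_self] at h2
      exact zero_ne_one h2)
  have hel : ∀ x ∈ K, ∀ L : X →L[ℝ] V,
      m * ‖L‖ ^ 2 ≤ ell (fun j => a j x) fun j => L (b j) := by
    intro x hx L
    by_cases h : L = 0
    · simp [h, ell]
    have hL : 0 < ‖L‖ := norm_pos_iff.2 h
    have h1 := hm (x, ‖L‖⁻¹ • L) ⟨hx, by simp [norm_smul, hL.ne']⟩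
    have h2 : (ell (fun j => a j x) fun j => (‖L‖⁻¹ • L) (b j))
        = ‖L‖⁻¹ ^ 2 * ell (fun j => a j x) fun j => L (b j) := by
      simp only [ell, ContinuousLinearMap.smul_apply, map_smul, real_inner_smul_left,
        real_inner_smul_right, Finset.mul_sum]
      refine Finset.sum_congr rfl fun j _ => Finset.sum_congr rfl fun k _ => by ring
    simp only [h2] at h1
    rw [inv_pow, le_inv_mul_iff₀ (by positivity)] at h1
    linarith
  choose C hC0 hC using fun j k => swap_le (μ := μ) (ha j) (ha k) (b j) (b k)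
  obtain ⟨M, hM0, hM⟩ := hc.bdd
  let S : ℝ := ∑ j, ∑ k, C j k
  have hS : 0 ≤ S := Finset.sum_nonneg fun j _ => Finset.sum_nonneg fun k _ => hC0 j k
  refine ⟨8 / m + 8 * M ^ 2 / m + S ^ 2 / m ^ 2, by positivity, fun f hf hs => ?_⟩
  let p : X → V := fun x => ∑ j, a j x (fderiv ℝ f x (b j))
  have hp : Tst p := Tst.sum _ fun j => (hf.dd (b j)).app (ha j).sm
  have i1 := fun j k => ((hf.dd (b j)).app (ha j).sm).inner_int (μ := μ)
    ((hf.dd (b k)).app (ha k).sm)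
  have i2 := fun j k => ((hf.dd (b k)).app (ha j).sm).inner_int (μ := μ)
    ((hf.dd (b j)).app (ha k).sm)
  have e1 : ∫ x, ‖p x‖ ^ 2 ∂μ
      = ∑ j, ∑ k, ∫ x, ⟪a j x (fderiv ℝ f x (b j)), a k x (fderiv ℝ f x (b k))⟫ ∂μ := by
    simp only [← integral_finset_sum _ fun k _ => i1 _ k]
    rw [← integral_finset_sum _ fun j _ => integrable_finset_sum _ fun k _ => i1 j k]
    congr 1; ext x
    simp only [← real_inner_self_eq_norm_sq, p]
    rw [sum_inner]
    simp only [inner_sum]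
  have e2 : m * ∫ x, ‖fderiv ℝ f x‖ ^ 2 ∂μ
      ≤ ∑ j, ∑ k, (∫ x, ⟪a j x (fderiv ℝ f x (b j)), a k x (fderiv ℝ f x (b k))⟫ ∂μ
        + ∫ x, ⟪a j x (fderiv ℝ f x (b k)), a k x (fderiv ℝ f x (b j))⟫ ∂μ) := by
    have i3 : ∀ j k, Integrable (fun x => ⟪a j x (fderiv ℝ f x (b j)), a k x (fderiv ℝ f x (b k))⟫
        + ⟪a j x (fderiv ℝ f x (b k)), a k x (fderiv ℝ f x (b j))⟫) μ := fun j k =>
      (i1 j k).add (i2 j k)
    simp only [← integral_add (i1 _ _) (i2 _ _), ← integral_finset_sum _ fun k _ => i3 _ k]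
    rw [← integral_finset_sum _ fun j _ => integrable_finset_sum _ fun k _ => i3 j k,
      ← integral_const_mul]
    refine integral_mono (hf.fd.sq.const_mul _)
      (integrable_finset_sum _ fun j _ => integrable_finset_sum _ fun k _ => i3 j k) fun x => ?_
    by_cases hx : x ∈ K
    · exact hel x hx _
    · have : fderiv ℝ f x = 0 := by
        by_contra h
        exact hx (hs (support_fderiv_subset ℝ h))
      simp [this]
  have e3 : m * ∫ x, ‖fderiv ℝ f x‖ ^ 2 ∂μ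
      ≤ 2 * ∫ x, ‖p x‖ ^ 2 ∂μ + S * ∫ x, ‖f x‖ * ‖fderiv ℝ f x‖ ∂μ := by
    refine e2.trans ?_
    rw [e1]
    simp only [S, Finset.mul_sum, Finset.sum_mul, ← Finset.sum_add_distrib]
    refine Finset.sum_le_sum fun j _ => Finset.sum_le_sum fun k _ => ?_
    linarith [hC j k f hf]
  have e4 : S * ∫ x, ‖f x‖ * ‖fderiv ℝ f x‖ ∂μ
      ≤ m / 2 * ∫ x, ‖fderiv ℝ f x‖ ^ 2 ∂μ + S ^ 2 / (2 * m) * ∫ x, ‖f x‖ ^ 2 ∂μ := by
    simp only [← integral_const_mul]
    rw [← integral_add (hf.fd.sq.const_mul _) (hf.sq.const_mul _)]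
    refine integral_mono_of_nonneg (Eventually.of_forall fun x => by positivity)
      ((hf.fd.sq.const_mul _).add (hf.sq.const_mul _)) (Eventually.of_forall fun x => ?_)
    have : m / 2 * ‖fderiv ℝ f x‖ ^ 2 + S ^ 2 / (2 * m) * ‖f x‖ ^ 2 - S * (‖f x‖ * ‖fderiv ℝ f x‖)
        = (m * ‖fderiv ℝ f x‖ - S * ‖f x‖) ^ 2 / (2 * m) := by field_simp; ring
    have h2 : 0 ≤ (m * ‖fderiv ℝ f x‖ - S * ‖f x‖) ^ 2 / (2 * m) := by positivity
    dsimp only
    linarith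
  have e5 : ∫ x, ‖p x‖ ^ 2 ∂μ
      ≤ 2 * ∫ x, ‖Pop a b c f x‖ ^ 2 ∂μ + 2 * M ^ 2 * ∫ x, ‖f x‖ ^ 2 ∂μ := by
    have := (Pop_tst (b := b) ha hc hf).sq (μ := μ)
    simp only [← integral_const_mul]
    rw [← integral_add (this.const_mul _) (hf.sq.const_mul _)]
    refine integral_mono hp.sq ((this.const_mul _).add (hf.sq.const_mul _)) fun x => ?_
    have h1 : ‖p x‖ ≤ ‖Pop a b c f x‖ + M * ‖f x‖ := by
      have : p x = Pop a b c f x - c x (f x) := by simp [Pop, p]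
      rw [this]
      exact (norm_sub_le _ _).trans (add_le_add le_rfl ((c x).le_of_opNorm_le (hM x) _))
    have h2 := pow_le_pow_left₀ (norm_nonneg _) h1 2
    dsimp only
    nlinarith [sq_nonneg (‖Pop a b c f x‖ - M * ‖f x‖)]
  set G := ∫ x, ‖fderiv ℝ f x‖ ^ 2 ∂μ
  set A := ∫ x, ‖Pop a b c f x‖ ^ 2 ∂μ
  set B := ∫ x, ‖f x‖ ^ 2 ∂μ
  have hA : 0 ≤ A := integral_nonneg fun x => sq_nonneg _
  have hB : 0 ≤ B := integral_nonneg fun x => sq_nonneg _
  have e6 : G ≤ 8 / m * A + (8 * M ^ 2 / m + S ^ 2 / m ^ 2) * B := by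
    have : m / 2 * G ≤ 4 * A + 4 * M ^ 2 * B + S ^ 2 / (2 * m) * B := by linarith
    have h2 : 8 / m * A + (8 * M ^ 2 / m + S ^ 2 / m ^ 2) * B
        = 2 / m * (4 * A + 4 * M ^ 2 * B + S ^ 2 / (2 * m) * B) := by field_simp; ring
    rw [h2]
    calc G = 2 / m * (m / 2 * G) := by field_simp
      _ ≤ _ := mul_le_mul_of_nonneg_left this (by positivity)
  have t1 : 0 ≤ 8 / m * B := by positivity
  have t2 : 0 ≤ (8 * M ^ 2 / m + S ^ 2 / m ^ 2) * A := by positivity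
  nlinarith

omit [MeasurableSpace X] [BorelSpace X] in
/-- a cutoff function -/
lemma exists_cut {K U : Set X} (hK : IsCompact K) (hU : IsOpen U) (h : K ⊆ U) :
    ∃ θ : X → ℝ, Tst θ ∧ tsupport θ ⊆ U ∧ (∀ x ∈ K, θ x = 1) ∧ ∀ x, θ x ∈ Icc (0 : ℝ) 1 := by
  obtain ⟨K', hK', h1, h2⟩ := exists_compact_between hK hU h
  obtain ⟨f, hf0, hf1, hf⟩ := exists_contMDiffMap_zero_one_of_isClosed 𝓘(ℝ, X) (n := ⊤)
    (s := (interior K')ᶜ) (t := K) isOpen_interior.isClosed_compl hK.isClosed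
    (disjoint_compl_left_iff_subset.2 h1)
  have hs : tsupport f ⊆ K' := closure_minimal
    (fun x hx => interior_subset (by by_contra h; exact hx (hf0 h))) hK'.isClosed
  exact ⟨f, ⟨f.contMDiff.contDiff, hK'.of_isClosed_subset (isClosed_tsupport _) hs⟩, hs.trans h2,
    fun x hx => hf1 hx, hf⟩

/-- Rellich's lemma in finite rank form -/
lemma rellich_flat [FiniteDimensional ℝ V] {K U : Set X} (hK : IsCompact K) (hU : IsOpen U)
    (h : K ⊆ U) {δ : ℝ} (hδ : 0 < δ) :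
    ∃ (m : ℕ) (F G : Fin m → X → V), (∀ i, Tst (F i) ∧ tsupport (F i) ⊆ U) ∧
      (∀ i, Tst (G i) ∧ tsupport (G i) ⊆ U) ∧ ∀ f : X → V, Tst f → tsupport f ⊆ K →
      ∫ x, ‖f x - ∑ i, (∫ y, ⟪G i y, f y⟫ ∂μ) • F i x‖ ^ 2 ∂μ
        ≤ δ * (∫ x, ‖fderiv ℝ f x‖ ^ 2 ∂μ + ∫ x, ‖f x‖ ^ 2 ∂μ) := by
  obtain ⟨θ, hθ, hθU, hθ1, hθ2⟩ := exists_cut hK hU h
  obtain ⟨C, hC⟩ := exists_mol μ
  obtain ⟨ρ, hρ⟩ := hC (√(δ / 2)) (by positivity)
  let T : ℝ := ∫ x, ‖θ x‖ ^ 2 ∂μ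
  have hT : 0 ≤ T := integral_nonneg fun x => sq_nonneg _
  let η : ℝ := √(δ / 2) / (T + 1)
  have hη : 0 < η := by positivity
  obtain ⟨r, hr0, hr⟩ := Metric.uniformContinuous_iff.1
    (hρ.tst.cpt.uniformContinuous_of_continuous hρ.tst.cont) η hη
  obtain ⟨t, -, htf, ht⟩ := finite_cover_balls_of_compact hθ.cpt hr0
  haveI := htf.fintype
  obtain ⟨φ, hφ⟩ := SmoothPartitionOfUnity.exists_isSubordinate 𝓘(ℝ, X) (isClosed_tsupport θ)
    (fun i : t => ball (i : X) r) (fun i => isOpen_ball) (by simpa using ht)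
  let e := stdOrthonormalBasis ℝ V
  let σ := (Fintype.equivFin (t × Fin (Module.finrank ℝ V))).symm
  let F : t × Fin (Module.finrank ℝ V) → X → V := fun q x => θ x • (φ q.1 x • e q.2)
  let G : t × Fin (Module.finrank ℝ V) → X → V := fun q y => θ y • (ρ (q.1 - y) • e q.2)
  have hF : ∀ q, Tst (F q) := fun q =>
    hθ.smul ((φ q.1).contMDiff.contDiff.smul contDiff_const)
  have hG : ∀ q, Tst (G q) := fun q =>
    hθ.smul ((hρ.tst.sm.comp (contDiff_const.sub contDiff_id)).smul contDiff_const)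
  refine ⟨_, fun i => F (σ i), fun i => G (σ i),
    fun i => ⟨hF _, (tsupport_smul_subset_left _ _).trans hθU⟩,
    fun i => ⟨hG _, (tsupport_smul_subset_left _ _).trans hθU⟩, fun f hf hs => ?_⟩
  have hθf : ∀ y, θ y • f y = f y := fun y => by
    by_cases hy : f y = 0
    · simp [hy]
    · rw [hθ1 y (hs (subset_tsupport _ hy)), one_smul]
  have hI : ∀ x, Integrable (fun y => ρ (x - y) • f y) μ := fun x =>
    ((hρ.tst.cont.comp (continuous_const.sub continuous_id)).smul hf.cont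
      ).integrable_of_hasCompactSupport hf.cpt.smul_left
  have hJ : ∀ x, Jm μ ρ f x = ∫ y, ρ (x - y) • f y ∂μ := fun x => by
    rw [Jm, ← integral_sub_left_eq_self _ μ x]; simp
  have e1 : ∀ x, ∑ i, (∫ y, ⟪G (σ i) y, f y⟫ ∂μ) • F (σ i) x
      = θ x • ∑ i : t, φ i x • Jm μ ρ f i := by
    intro x
    rw [σ.sum_comp fun q => (∫ y, ⟪G q y, f y⟫ ∂μ) • F q x, Fintype.sum_prod_type, Finset.smul_sum]
    refine Finset.sum_congr rfl fun i _ => ?_
    rw [← e.sum_repr' (Jm μ ρ f i), Finset.smul_sum, Finset.smul_sum]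
    refine Finset.sum_congr rfl fun k _ => ?_
    have : ∫ y, ⟪G (i, k) y, f y⟫ ∂μ = ⟪e k, Jm μ ρ f i⟫ := by
      rw [hJ, ← integral_inner (hI i)]
      congr 1; ext y
      conv_rhs => rw [← hθf y]
      simp only [G, real_inner_smul_left, real_inner_smul_right]; ring
    rw [this]
    simp only [F, smul_smul]
    congr 1; ring
  let N : ℝ := ∫ y, ‖f y‖ ∂μ
  have hN0 : 0 ≤ N := integral_nonneg fun y => norm_nonneg _
  have hN : N ^ 2 ≤ T * ∫ x, ‖f x‖ ^ 2 ∂μ := by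
    have h1 : ∀ y, ‖θ y‖ ^ 2 * ‖f y‖ = ‖f y‖ := fun y => by
      by_cases hy : f y = 0
      · simp [hy]
      · rw [hθ1 y (hs (subset_tsupport _ hy))]; simp
    have h2 : ∀ y, ‖θ y‖ ^ 2 * ‖f y‖ ^ 2 = ‖f y‖ ^ 2 := fun y => by
      rw [sq ‖f y‖, ← mul_assoc, h1]
    have := wcs (ν := μ) (k := fun y => ‖θ y‖ ^ 2) (u := fun y => ‖f y‖) (fun y => sq_nonneg _)
      hθ.sq (by simpa only [h1] using hf.int.norm) (by simpa only [h2] using hf.sq)
    simpa only [h1, h2] using this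
  have e2 : ∀ x, ‖f x - θ x • ∑ i : t, φ i x • Jm μ ρ f i‖
      ≤ ‖f x - Jm μ ρ f x‖ + ‖θ x‖ * (η * N) := by
    intro x
    by_cases hx : θ x = 0
    · have : f x = 0 := by rw [← hθf, hx, zero_smul]
      simp [hx, this]
    have hs1 : ∑ i : t, φ i x = 1 := by
      rw [← finsum_eq_sum_of_fintype]; exact φ.sum_eq_one (subset_tsupport _ hx)
    have e : f x - θ x • ∑ i : t, φ i x • Jm μ ρ f i = θ x • (f x - Jm μ ρ f x)
        + θ x • ∑ i : t, φ i x • (Jm μ ρ f x - Jm μ ρ f i) := by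
      simp only [smul_sub, Finset.sum_sub_distrib, ← Finset.sum_smul, hs1, one_smul, hθf]
      abel
    rw [e]
    refine (norm_add_le _ _).trans (add_le_add ?_ ?_)
    · rw [norm_smul, Real.norm_of_nonneg (hθ2 x).1]
      exact mul_le_of_le_one_left (norm_nonneg _) (hθ2 x).2
    rw [norm_smul]
    refine mul_le_mul_of_nonneg_left ((norm_sum_le _ _).trans ?_) (norm_nonneg _)
    rw [← one_mul (η * N), ← hs1, Finset.sum_mul]
    refine Finset.sum_le_sum fun i _ => ?_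
    rw [norm_smul, Real.norm_of_nonneg (φ.nonneg i x)]
    by_cases hi : φ i x = 0
    · simp [hi]
    refine mul_le_mul_of_nonneg_left ?_ (φ.nonneg i x)
    have hxi : dist x i < r := hφ i (subset_tsupport _ hi)
    rw [hJ, hJ, ← integral_sub (hI x) (hI i), ← integral_const_mul]
    refine (norm_integral_le_integral_norm _).trans (integral_mono ((hI x).sub (hI i)).norm
      (hf.int.norm.const_mul _) fun y => ?_)
    dsimp only
    rw [← sub_smul, norm_smul]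
    refine mul_le_mul_of_nonneg_right ?_ (norm_nonneg _)
    exact (hr (a := x - y) (b := i - y) (by simpa using hxi)).le
  have hc := hρ.close hf
  rw [Real.sq_sqrt (by positivity)] at hc
  have hsub := (hf.sub (Jm_tst (μ := μ) hρ.tst hf)).sq (μ := μ)
  have e3 : ∫ x, ‖f x - ∑ i, (∫ y, ⟪G (σ i) y, f y⟫ ∂μ) • F (σ i) x‖ ^ 2 ∂μ
      ≤ 2 * ∫ x, ‖f x - Jm μ ρ f x‖ ^ 2 ∂μ + 2 * (η * N) ^ 2 * T := by
    simp only [T, ← integral_const_mul]
    rw [← integral_add (hsub.const_mul _) (hθ.sq.const_mul _)]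
    refine integral_mono_of_nonneg (Eventually.of_forall fun x => sq_nonneg _)
      ((hsub.const_mul _).add (hθ.sq.const_mul _)) (Eventually.of_forall fun x => ?_)
    dsimp only
    rw [e1]
    have := pow_le_pow_left₀ (norm_nonneg _) (e2 x) 2
    nlinarith [sq_nonneg (‖f x - Jm μ ρ f x‖ - ‖θ x‖ * (η * N))]
  have hB : 0 ≤ ∫ x, ‖f x‖ ^ 2 ∂μ := integral_nonneg fun x => sq_nonneg _
  have e4 : 2 * (η * N) ^ 2 * T ≤ δ * ∫ x, ‖f x‖ ^ 2 ∂μ := by
    have h1 : (η * T) ^ 2 ≤ δ / 2 := by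
      rw [← Real.sq_sqrt (x := δ / 2) (by positivity)]
      refine pow_le_pow_left₀ (by positivity) ?_ 2
      rw [div_mul_eq_mul_div, div_le_iff₀ (by positivity)]
      nlinarith [Real.sqrt_nonneg (δ / 2)]
    have h2 := mul_le_mul_of_nonneg_left hN (by positivity : 0 ≤ 2 * η ^ 2 * T)
    have h3 := mul_le_mul_of_nonneg_right h1 hB
    nlinarith
  linarith

end Pool.Agent.Lib.TH
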