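import Pool.Agent.Lib.TH.Flat3

/-! Flat analysis for first order operators, part 4: weak solutions are strong solutions, and the
Rellich estimate, for an operator in a chart of an abstract Hilbert space. -/

open MeasureTheory Filter Topology Set Metric
open scoped ContDiff RealInnerProductSpace

noncomputable section

namespace Pool.Agent.Lib.TH

variable {X : Type*} [NormedAddCommGroup X] [NormedSpace ℝ X] [FiniteDimensional ℝ X]
  [MeasurableSpace X] [BorelSpace X] {μ : Measure X} [μ.IsAddHaarMeasure]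
  {V : Type*} [NormedAddCommGroup V] [InnerProductSpace ℝ V]

lemma abs_int_inner_le {f g : X → V} (hf : Tst f) (hg : Tst g) :
    |∫ x, ⟪f x, g x⟫ ∂μ| ≤ ∫ x, ‖f x‖ ^ 2 ∂μ + ∫ x, ‖g x‖ ^ 2 ∂μ := by
  rw [← integral_add hf.sq hg.sq]
  refine abs_integral_le_integral_abs.trans
    (integral_mono (hf.inner_int hg).abs (hf.sq.add hg.sq) fun x => ?_)
  have := abs_real_inner_le_norm (f x) (g x)
  dsimp only
  nlinarith [sq_nonneg (‖f x‖ - ‖g x‖), norm_nonneg (f x), norm_nonneg (g x)]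

lemma sq_le_of_le {W : Type*} [NormedAddCommGroup W] {f : X → V} {g : X → W} (hf : Tst f) {M : ℝ}
    (h : ∀ x, ‖g x‖ ≤ M * ‖f x‖) : ∫ x, ‖g x‖ ^ 2 ∂μ ≤ M ^ 2 * ∫ x, ‖f x‖ ^ 2 ∂μ := by
  rw [← integral_const_mul]
  refine integral_mono_of_nonneg (Eventually.of_forall fun x => sq_nonneg _) (hf.sq.const_mul _)
    (Eventually.of_forall fun x => ?_)
  simpa only [mul_pow] using pow_le_pow_left₀ (norm_nonneg _) (h x) 2

section Global
variable {ι : Type*} [Fintype ι] {a : ι → X → V →L[ℝ] V} {b : ι → X} {c : X → V →L[ℝ] V}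

omit [FiniteDimensional ℝ X] [MeasurableSpace X] [BorelSpace X] in
lemma Pop_smul {θ : X → ℝ} (hθ : Tst θ) {g : X → V} (hg : Tst g) (x : X) :
    Pop a b c (fun y => θ y • g y) x
      = θ x • Pop a b c g x + (∑ j, fderiv ℝ θ x (b j) • a j x) (g x) := by
  have h : fderiv ℝ (fun y => θ y • g y) x
      = θ x • fderiv ℝ g x + (fderiv ℝ θ x).smulRight (g x) :=
    ((hθ.diff x).hasFDerivAt.smul (hg.diff x).hasFDerivAt).fderiv
  simp only [Pop, h, ContinuousLinearMap.add_apply, ContinuousLinearMap.smul_apply,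
    ContinuousLinearMap.smulRight_apply, map_add, map_smul, Finset.sum_add_distrib, smul_add,
    Finset.smul_sum, ContinuousLinearMap.sum_apply]
  abel

variable (μ) in
/-- the localised mollification -/
def Jc (θ ρ : X → ℝ) (f : X → V) (x : X) : V := θ x • Jm μ ρ (fun y => θ y • f y) x

lemma Jc_tst {θ ρ : X → ℝ} (hθ : Tst θ) (hρ : Tst ρ) {f : X → V} (hf : Tst f) :
    Tst (Jc μ θ ρ f) := hθ.smul (Jm_tst hρ (hθ.smul hf.sm)).sm

lemma comm_Jc [CompleteSpace V] (ha : ∀ j, Tst (a j)) (hc : Tst c) (b : ι → X) (C : ℝ)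
    {θ : X → ℝ} (hθ : Tst θ) (h1 : ∀ x, θ x ∈ Icc (0 : ℝ) 1) :
    ∃ C₂, 0 ≤ C₂ ∧ ∀ ε ρ, Mol μ C ε ρ → ∀ f g : X → V, Tst f → Tst g →
      |∫ x, ⟪Jc μ θ ρ f x, Pop a b c g x⟫ ∂μ - ∫ x, ⟪f x, Pop a b c (Jc μ θ ρ g) x⟫ ∂μ|
        ≤ C₂ * (∫ x, ‖f x‖ ^ 2 ∂μ + ∫ x, ‖g x‖ ^ 2 ∂μ) := by
  obtain ⟨C₁, hC₁⟩ := comm_le (μ := μ) ha hc b C
  let Q : X → V →L[ℝ] V := fun x => ∑ j, fderiv ℝ θ x (b j) • a j x
  have hQ : Tst Q := Tst.sum _ fun j => (hθ.dd (b j)).smul (ha j).sm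
  obtain ⟨M, hM0, hM⟩ := hQ.bdd
  refine ⟨3 + |C₁| + 2 * M ^ 2, by positivity, fun ε ρ h f g hf hg => ?_⟩
  have hρ := h.tst
  have hf' := hθ.smul hf.sm
  have hg' := hθ.smul hg.sm
  set f' : X → V := fun y => θ y • f y with hfe
  set g' : X → V := fun y => θ y • g y with hge
  have hJf := Jm_tst (μ := μ) hρ hf'
  have hJg := Jm_tst (μ := μ) hρ hg'
  have e1 : ∫ x, ⟪Jc μ θ ρ f x, Pop a b c g x⟫ ∂μ
      = ∫ x, ⟪f' x, Jm μ ρ (Pop a b c g') x⟫ ∂μ - ∫ x, ⟪Jm μ ρ f' x, Q x (g x)⟫ ∂μ := by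
    rw [← Jm_symm hρ h.even hf' (Pop_tst ha hc hg'),
      ← integral_sub (hJf.inner_int (Pop_tst ha hc hg')) (hJf.inner_int (hg.app hQ.sm))]
    congr 1; ext x
    rw [hge, Pop_smul hθ hg, Jc, inner_add_right, real_inner_smul_left, real_inner_smul_right]
    simp only [Q, hfe]; ring
  have e2 : ∫ x, ⟪f x, Pop a b c (Jc μ θ ρ g) x⟫ ∂μ
      = ∫ x, ⟪f' x, Pop a b c (Jm μ ρ g') x⟫ ∂μ + ∫ x, ⟪f x, Q x (Jm μ ρ g' x)⟫ ∂μ := by
    rw [← integral_add (hf'.inner_int (Pop_tst ha hc hJg)) (hf.inner_int (hJg.app hQ.sm))]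
    congr 1; ext x
    rw [show Jc μ θ ρ g = fun y => θ y • Jm μ ρ g' y from rfl, Pop_smul hθ hJg, inner_add_right,
      real_inner_smul_right, hfe, real_inner_smul_left]
  have hcut : ∀ {f : X → V} (_ : Tst f), ∫ x, ‖θ x • f x‖ ^ 2 ∂μ ≤ ∫ x, ‖f x‖ ^ 2 ∂μ := by
    intro f hf
    simpa using sq_le_of_le (μ := μ) (M := 1) (g := fun x => θ x • f x) hf fun x => by
      rw [norm_smul, Real.norm_of_nonneg (h1 x).1]
      exact mul_le_mul_of_nonneg_right (h1 x).2 (norm_nonneg _)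
  have hQle : ∀ {f : X → V} (_ : Tst f), ∫ x, ‖Q x (f x)‖ ^ 2 ∂μ ≤ M ^ 2 * ∫ x, ‖f x‖ ^ 2 ∂μ :=
    fun hf => sq_le_of_le hf fun x => (Q x).le_of_opNorm_le (hM x) _
  have t1 := abs_int_inner_le (μ := μ) hf'
    ((Jm_tst (μ := μ) hρ (Pop_tst (b := b) ha hc hg')).sub (Pop_tst (b := b) ha hc hJg))
  simp only [inner_sub_right] at t1
  rw [integral_sub (hf'.inner_int (Jm_tst hρ (Pop_tst ha hc hg')))
    (hf'.inner_int (Pop_tst ha hc hJg))] at t1
  have t2 := abs_int_inner_le (μ := μ) hJf (hg.app hQ.sm)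
  have t3 := abs_int_inner_le (μ := μ) hf (hJg.app hQ.sm)
  have s1 := hC₁ ε ρ h g' hg'
  have s2 : ∫ x, ‖f' x‖ ^ 2 ∂μ ≤ _ := hcut hf
  have s3 : ∫ x, ‖g' x‖ ^ 2 ∂μ ≤ _ := hcut hg
  have s4 := h.sq_le hf'
  have s5 := h.sq_le hg'
  have s6 := hQle hg
  have s7 := hQle hJg
  have p1 : 0 ≤ ∫ x, ‖f x‖ ^ 2 ∂μ := integral_nonneg fun x => sq_nonneg _
  have p2 : 0 ≤ ∫ x, ‖g x‖ ^ 2 ∂μ := integral_nonneg fun x => sq_nonneg _
  have p3 : 0 ≤ ∫ x, ‖g' x‖ ^ 2 ∂μ := integral_nonneg fun x => sq_nonneg _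
  have s8 : C₁ * ∫ x, ‖g' x‖ ^ 2 ∂μ ≤ |C₁| * ∫ x, ‖g x‖ ^ 2 ∂μ :=
    mul_le_mul (le_abs_self _) s3 p3 (abs_nonneg _)
  have s9 := mul_le_mul_of_nonneg_left (s5.trans s3) (sq_nonneg M)
  have s10 : 0 ≤ (|C₁| + 2 * M ^ 2) * ∫ x, ‖f x‖ ^ 2 ∂μ := by positivity
  rw [e1, e2, abs_le]
  rw [abs_le] at t1 t2 t3
  constructor <;> nlinarith [t1.1, t1.2, t2.1, t2.2, t3.1, t3.2]

lemma Pop_Jc_le (ha : ∀ j, Tst (a j)) (hc : Tst c) (b : ι → X) {θ ρ : X → ℝ} (hθ : Tst θ)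
    (hρ : Tst ρ) : ∃ C₁, 0 ≤ C₁ ∧ ∀ f : X → V, Tst f →
      ∫ x, ‖Pop a b c (Jc μ θ ρ f) x‖ ^ 2 ∂μ ≤ C₁ * ∫ x, ‖f x‖ ^ 2 ∂μ := by
  let Q : X → V →L[ℝ] V := fun x => ∑ j, fderiv ℝ θ x (b j) • a j x
  have hQ : Tst Q := Tst.sum _ fun j => (hθ.dd (b j)).smul (ha j).sm
  obtain ⟨C₁, hC₁⟩ := Pop_Jm_le (μ := μ) (a := fun j x => θ x • a j x)
    (c := fun x => θ x • c x + Q x) (fun j => hθ.smul (ha j).sm) ((hθ.smul hc.sm).add hQ) b hρ
  obtain ⟨M, hM0, hM⟩ := hθ.bdd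
  refine ⟨|C₁| * M ^ 2, by positivity, fun f hf => ?_⟩
  have hf' := hθ.smul hf.sm
  have e : ∀ x, Pop a b c (Jc μ θ ρ f) x = Pop (fun j x => θ x • a j x) b
      (fun x => θ x • c x + Q x) (Jm μ ρ fun y => θ y • f y) x := by
    intro x
    rw [show Jc μ θ ρ f = fun y => θ y • Jm μ ρ (fun y => θ y • f y) y from rfl,
      Pop_smul hθ (Jm_tst hρ hf')]
    simp only [Pop, Q, smul_add, Finset.smul_sum, ContinuousLinearMap.smul_apply,
      ContinuousLinearMap.add_apply, add_assoc]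
  simp only [e]
  refine (hC₁ _ hf').trans ?_
  rw [mul_assoc]
  refine mul_le_mul (le_abs_self _) (sq_le_of_le hf fun x => ?_)
    (integral_nonneg fun x => sq_nonneg _) (abs_nonneg _)
  rw [norm_smul]; exact mul_le_mul_of_nonneg_right (hM x) (norm_nonneg _)

end Global

/-- test functions in an open set -/
def Test {W : Type*} [NormedAddCommGroup W] [NormedSpace ℝ W] (U : Set X) (f : X → W) : Prop :=
  ContDiff ℝ ∞ f ∧ HasCompactSupport f ∧ tsupport f ⊆ U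

/-- a first order operator in a frame -/
def Pfr {ι : Type*} [Fintype ι] (γ : ι → X → V →L[ℝ] V) (e : ι → X → X) (c : X → V →L[ℝ] V)
    (f : X → V) (x : X) : V :=
  ∑ i, γ i x (fderiv ℝ f x (e i x)) + c x (f x)

omit [FiniteDimensional ℝ X] [MeasurableSpace X] [BorelSpace X] in
lemma Test.tst {W : Type*} [NormedAddCommGroup W] [NormedSpace ℝ W] {U : Set X} {f : X → W}
    (h : Test U f) : Tst f := ⟨h.1, h.2.1⟩

omit [FiniteDimensional ℝ X] [MeasurableSpace X] [BorelSpace X] in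
lemma Tst.smul_on {W : Type*} [NormedAddCommGroup W] [NormedSpace ℝ W] {U : Set X} (hU : IsOpen U)
    {θ : X → ℝ} (hθ : Tst θ) (hs : tsupport θ ⊆ U) {g : X → W} (hg : ContDiffOn ℝ ∞ g U) :
    Tst fun x => θ x • g x := by
  refine ⟨contDiff_iff_contDiffAt.2 fun x => ?_, hθ.cpt.smul_right⟩
  by_cases hx : x ∈ tsupport θ
  · exact hθ.sm.contDiffAt.smul (hg.contDiffAt (hU.mem_nhds (hs hx)))
  · refine (contDiffAt_const (c := 0)).congr_of_eventuallyEq ?_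
    filter_upwards [notMem_tsupport_iff_eventuallyEq.1 hx] with y hy
    simp [hy]

variable {ι : Type*} [Fintype ι] {γ : ι → X → V →L[ℝ] V} {e : ι → X → X} {c : X → V →L[ℝ] V}
  {U : Set X} {r : X → ℝ}

omit [FiniteDimensional ℝ X] [MeasurableSpace X] [BorelSpace X] in
lemma Pfr_zero {f : X → V} {x : X} (hx : x ∉ tsupport f) : Pfr γ e c f x = 0 := by
  have h1 : fderiv ℝ f x = 0 := by
    by_contra h; exact hx (support_fderiv_subset ℝ h)
  simp [Pfr, h1, image_eq_zero_of_notMem_tsupport hx]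

omit [FiniteDimensional ℝ X] [MeasurableSpace X] [BorelSpace X] in
lemma tsupport_Pfr (f : X → V) : tsupport (Pfr γ e c f) ⊆ tsupport f :=
  closure_minimal (fun x hx => by by_contra h; exact hx (Pfr_zero h)) (isClosed_tsupport f)

omit [MeasurableSpace X] [BorelSpace X] in
/-- coefficients that are smooth on `U` can be made global on a compact subset -/
lemma globalize (hU : IsOpen U) (hr : ContDiffOn ℝ ∞ r U) (hγ : ∀ i, ContDiffOn ℝ ∞ (γ i) U)
    (he : ∀ i, ContDiffOn ℝ ∞ (e i) U) (hc : ContDiffOn ℝ ∞ c U) {K : Set X} (hK : IsCompact K)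
    (hKU : K ⊆ U) :
    ∃ (a : ι × Fin (Module.finrank ℝ X) → X → V →L[ℝ] V) (b : ι × Fin (Module.finrank ℝ X) → X)
      (c' : X → V →L[ℝ] V), (∀ j, Tst (a j)) ∧ Tst c' ∧
      (∀ f : X → V, tsupport f ⊆ K → Pop a b c' f = fun x => r x • Pfr γ e c f x) ∧
      ∀ x ∈ K, ∀ L : X →L[ℝ] V, (ell (fun j => a j x) fun j => L (b j))
        = r x ^ 2 * ell (fun i => γ i x) fun i => L (e i x) := by
  obtain ⟨χ, hχ, hχU, hχ1, -⟩ := exists_cut hK hU hKU
  let B := Module.finBasis ℝ X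
  let co : Fin (Module.finrank ℝ X) → X →L[ℝ] ℝ := fun k => (B.coord k).toContinuousLinearMap
  have hB : ∀ (L : X →L[ℝ] V) v, ∑ k, co k v • L (B k) = L v := fun L v => by
    conv_rhs => rw [← B.sum_repr v, map_sum]
    simp only [map_smul]
    rfl
  refine ⟨fun j x => χ x • ((r x * co j.2 (e j.1 x)) • γ j.1 x), fun j => B j.2,
    fun x => χ x • (r x • c x), fun j => hχ.smul_on hU hχU
      ((hr.mul ((co j.2).contDiff.comp_contDiffOn (he j.1))).smul (hγ j.1)),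
    hχ.smul_on hU hχU (hr.smul hc), fun f hf => funext fun x => ?_, fun x hx L => ?_⟩
  · by_cases hx : x ∈ tsupport f
    · simp only [Pop, Pfr, hχ1 x (hf hx), one_smul, Fintype.sum_prod_type, smul_add,
        Finset.smul_sum, ContinuousLinearMap.smul_apply]
      congr 1
      refine Finset.sum_congr rfl fun i _ => ?_
      rw [← hB (fderiv ℝ f x) (e i x), map_sum, Finset.smul_sum]
      simp only [map_smul, smul_smul]
    · rw [Pfr_zero hx, smul_zero]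
      exact Pfr_zero (γ := fun j x => χ x • ((r x * co j.2 (e j.1 x)) • γ j.1 x))
        (e := fun (j : ι × Fin (Module.finrank ℝ X)) _ => B j.2)
        (c := fun x => χ x • (r x • c x)) hx
  · simp only [ell, hχ1 x hx, one_smul, Fintype.sum_prod_type, Finset.mul_sum]
    refine Finset.sum_congr rfl fun i _ => ?_
    rw [Finset.sum_comm]
    refine Finset.sum_congr rfl fun j _ => ?_
    rw [← hB L (e i x), ← hB L (e j x)]
    simp only [map_sum, map_smul, sum_inner, inner_sum, ContinuousLinearMap.smul_apply,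
      real_inner_smul_left, real_inner_smul_right, mul_add, Finset.mul_sum, Finset.sum_add_distrib]
    congr 1
    · rw [Finset.sum_comm]
      exact Finset.sum_congr rfl fun k _ => Finset.sum_congr rfl fun l _ => by ring
    · exact Finset.sum_congr rfl fun k _ => Finset.sum_congr rfl fun l _ => by ring

end Pool.Agent.Lib.TH
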