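import Mathlib

/-! Algebraic core of the Lichnerowicz formula. -/

noncomputable section

open Finset

namespace Pool.Agent.Lib.TH.Lich

variable {ι : Type*} [Fintype ι] [DecidableEq ι] {A : Type*} [Ring A] [Algebra ℝ A]

/-- Clifford relations `γ_a γ_b + γ_b γ_a = -2 δ_ab`. -/
def IsCliff (γ : ι → A) : Prop :=
  ∀ a b, γ a * γ b + γ b * γ a = if a = b then (-2 : ℝ) • (1 : A) else 0

/-- `(1/4) ∑ G_jk γ_j γ_k`. -/
def om (γ : ι → A) (G : ι → ι → ℝ) : A := ∑ j, ∑ k, (G j k / 4) • (γ j * γ k)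

variable {γ : ι → A}

set_option linter.unusedSectionVars false

lemma IsCliff.swap (h : IsCliff γ) (a b : ι) :
    γ a * γ b = -(γ b * γ a) + if a = b then (-2 : ℝ) • (1 : A) else 0 := by
  rw [← h a b]; abel

lemma IsCliff.sq (h : IsCliff γ) (a : ι) : γ a * γ a = -1 := by
  have h1 := h a a
  rw [if_pos rfl, ← two_smul ℝ] at h1
  have h2 : (2 : ℝ) • (γ a * γ a) = (2 : ℝ) • (-1 : A) := by rw [h1]; simp
  have h3 := congrArg (fun z => (1 / 2 : ℝ) • z) h2
  simpa [smul_smul] using h3

lemma IsCliff.comm2 (h : IsCliff γ) (j k l : ι) :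
    γ j * γ k * γ l - γ l * (γ j * γ k) =
      (if k = l then (-2 : ℝ) • γ j else 0) + (if j = l then (2 : ℝ) • γ k else 0) := by
  have e : γ j * γ k * γ l - γ l * (γ j * γ k) =
      γ j * (γ k * γ l + γ l * γ k) - (γ j * γ l + γ l * γ j) * γ k := by noncomm_ring
  rw [e, h k l, h j l]
  split_ifs <;> simp [sub_eq_add_neg]

omit [DecidableEq ι] in
lemma om_add (G H : ι → ι → ℝ) : om γ (fun j k => G j k + H j k) = om γ G + om γ H := by
  simp only [om, add_div, add_smul, sum_add_distrib]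

omit [DecidableEq ι] in
lemma om_sub (G H : ι → ι → ℝ) : om γ (fun j k => G j k - H j k) = om γ G - om γ H := by
  simp only [om, sub_div, sub_smul, sum_sub_distrib]

omit [DecidableEq ι] in
lemma om_sum (s : ι → ℝ) (G : ι → ι → ι → ℝ) :
    om γ (fun j k => ∑ m, s m * G m j k) = ∑ m, s m • om γ (G m) := by
  simp only [om, smul_sum, smul_smul, sum_div, sum_smul]
  rw [sum_comm]
  conv_rhs => rw [sum_comm]
  rw [sum_comm]
  refine sum_congr rfl fun j _ => ?_
  rw [sum_comm]
  refine sum_congr rfl fun m _ => sum_congr rfl fun k _ => ?_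
  rw [mul_div_assoc]

lemma IsCliff.om_comm (h : IsCliff γ) {G : ι → ι → ℝ} (hG : ∀ j k, G j k = -G k j) (l : ι) :
    om γ G * γ l - γ l * om γ G = ∑ m, G l m • γ m := by
  simp only [om, sum_mul, mul_sum, smul_mul_assoc, mul_smul_comm, ← sum_sub_distrib, ← smul_sub,
    h.comm2, smul_add, sum_add_distrib]
  have e1 : ∑ j, ∑ k, (G j k / 4) • (if k = l then (-2 : ℝ) • γ j else 0) =
      ∑ m, (G l m / 2) • γ m := by
    refine sum_congr rfl fun j _ => ?_
    rw [sum_eq_single l (by intro b _ hb; simp [hb]) (by simp), if_pos rfl, smul_smul, hG j l]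
    congr 1; ring
  have e2 : ∑ j, ∑ k, (G j k / 4) • (if j = l then (2 : ℝ) • γ k else 0) =
      ∑ m, (G l m / 2) • γ m := by
    rw [sum_eq_single l (by intro b _ hb; simp [hb]) (by simp)]
    refine sum_congr rfl fun k _ => ?_
    rw [if_pos rfl, smul_smul]; congr 1; ring
  rw [e1, e2, ← sum_add_distrib]
  refine sum_congr rfl fun m _ => ?_
  rw [← add_smul]; congr 1; ring

lemma IsCliff.om_bracket (h : IsCliff γ) {G H : ι → ι → ℝ} (hG : ∀ j k, G j k = -G k j) :
    om γ G * om γ H - om γ H * om γ G =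
      om γ (fun j k => ∑ m, (H j m * G m k - G j m * H m k)) := by
  have e0 : ∀ j k, om γ G * (γ j * γ k) - γ j * γ k * om γ G =
      ∑ m, G j m • (γ m * γ k) + ∑ m, G k m • (γ j * γ m) := by
    intro j k
    have e : om γ G * (γ j * γ k) - γ j * γ k * om γ G =
        (om γ G * γ j - γ j * om γ G) * γ k + γ j * (om γ G * γ k - γ k * om γ G) := by
      noncomm_ring
    rw [e, h.om_comm hG, h.om_comm hG]
    simp only [sum_mul, mul_sum, smul_mul_assoc, mul_smul_comm]
  have e1 : om γ G * om γ H - om γ H * om γ G =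
      ∑ j, ∑ k, (H j k / 4) • (om γ G * (γ j * γ k) - γ j * γ k * om γ G) := by
    conv_lhs => rw [om.eq_1 γ H]
    simp only [sum_mul, mul_sum, smul_mul_assoc, mul_smul_comm, ← sum_sub_distrib, smul_sub]
  rw [e1]
  simp only [e0, smul_add, smul_sum, smul_smul, sum_add_distrib]
  rw [om]
  simp only [sum_div, sum_smul, sub_div, sub_smul, sum_sub_distrib]
  rw [sub_eq_add_neg, add_comm]
  congr 1
  · refine sum_congr rfl fun j _ => ?_
    rw [sum_comm]
    refine sum_congr rfl fun k _ => sum_congr rfl fun m _ => ?_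
    congr 1; ring
  · rw [sum_comm]
    conv_rhs => rw [sum_comm]
    rw [← sum_neg_distrib]
    refine sum_congr rfl fun k _ => ?_
    rw [sum_comm, ← sum_neg_distrib]
    refine sum_congr rfl fun m _ => ?_
    rw [← sum_neg_distrib]
    refine sum_congr rfl fun j _ => ?_
    rw [← neg_smul, hG j m]; congr 1; ring

lemma IsCliff.cubic (h : IsCliff γ) {R : ι → ι → ι → ℝ} (h1 : ∀ a b j, R a b j = -R b a j)
    (hB : ∀ a b j, R a b j + R b j a + R j a b = 0) :
    ∑ a, ∑ b, ∑ j, R a b j • (γ a * γ b * γ j) = ∑ a, ((-2) * ∑ b, R a b b) • γ a := by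
  set T := ∑ a, ∑ b, ∑ j, R a b j • (γ a * γ b * γ j) with hT
  have z : ∑ a, ∑ b, ∑ j, (R a b j + R b j a + R j a b) • (γ a * γ b * γ j) = 0 := by
    simp [hB]
  have c1 : ∑ a, ∑ b, ∑ j, R b j a • (γ a * γ b * γ j) =
      ∑ a, ∑ b, ∑ j, R a b j • (γ j * γ a * γ b) := by
    rw [sum_comm]
    refine sum_congr rfl fun b _ => ?_
    rw [sum_comm]
  have c2 : ∑ a, ∑ b, ∑ j, R j a b • (γ a * γ b * γ j) =
      ∑ a, ∑ b, ∑ j, R a b j • (γ b * γ j * γ a) := by
    symm
    rw [sum_comm]
    refine sum_congr rfl fun b _ => ?_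
    rw [sum_comm]
  have d1 : ∀ a b j, γ j * γ a * γ b = γ a * γ b * γ j +
      ((if b = j then (2 : ℝ) • γ a else 0) + (if a = j then (-2 : ℝ) • γ b else 0)) := by
    intro a b j
    have := h.comm2 a b j
    rw [mul_assoc (γ j), ← sub_eq_iff_eq_add', ← neg_sub, this]
    split_ifs <;> simp <;> abel
  have d2 : ∀ a b j, γ b * γ j * γ a = γ a * γ b * γ j +
      ((if j = a then (-2 : ℝ) • γ b else 0) + (if b = a then (2 : ℝ) • γ j else 0)) := by
    intro a b j
    have := h.comm2 b j a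
    rw [mul_assoc (γ a), ← sub_eq_iff_eq_add', this]
  have s1 : ∑ a, ∑ b, ∑ j, R a b j • (if b = j then (2 : ℝ) • γ a else 0) =
      ∑ a, (2 * ∑ b, R a b b) • γ a := by
    refine sum_congr rfl fun a _ => ?_
    rw [mul_sum, sum_smul]
    refine sum_congr rfl fun b _ => ?_
    rw [sum_eq_single b (by intro j _ hj; simp [Ne.symm hj]) (by simp), if_pos rfl, smul_smul,
      mul_comm]
  have s2 : ∑ a, ∑ b, ∑ j, R a b j • (if a = j then (-2 : ℝ) • γ b else 0) =
      ∑ a, (2 * ∑ b, R a b b) • γ a := by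
    rw [sum_comm]
    refine sum_congr rfl fun b _ => ?_
    rw [mul_sum, sum_smul]
    refine sum_congr rfl fun a _ => ?_
    rw [sum_eq_single a (by intro j _ hj; simp [Ne.symm hj]) (by simp), if_pos rfl, smul_smul,
      h1 a b a]
    congr 1; ring
  have s3 : ∑ a, ∑ b, ∑ j, R a b j • (if j = a then (-2 : ℝ) • γ b else 0) =
      ∑ a, (2 * ∑ b, R a b b) • γ a := by
    rw [← s2]; simp only [eq_comm]
  have s4 : ∑ a, ∑ b, ∑ j, R a b j • (if b = a then (2 : ℝ) • γ j else 0) = 0 := by
    refine sum_eq_zero fun a _ => sum_eq_zero fun b _ => sum_eq_zero fun j _ => ?_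
    split_ifs with hb
    · subst hb
      have : R b b j = 0 := by have := h1 b b j; linarith
      simp [this]
    · simp
  have z1 : ∑ a, ∑ b, ∑ j, R a b j • (γ j * γ a * γ b) =
      T + (∑ a, (2 * ∑ b, R a b b) • γ a + ∑ a, (2 * ∑ b, R a b b) • γ a) := by
    rw [← congrArg₂ (· + ·) s1 s2, hT]
    simp only [← sum_add_distrib, ← smul_add]
    exact sum_congr rfl fun a _ => sum_congr rfl fun b _ => sum_congr rfl fun j _ => by rw [d1]
  have z2 : ∑ a, ∑ b, ∑ j, R a b j • (γ b * γ j * γ a) =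
      T + (∑ a, (2 * ∑ b, R a b b) • γ a + 0) := by
    rw [← congrArg₂ (· + ·) s3 s4, hT]
    simp only [← sum_add_distrib, ← smul_add]
    exact sum_congr rfl fun a _ => sum_congr rfl fun b _ => sum_congr rfl fun j _ => by rw [d2]
  simp only [add_smul, sum_add_distrib] at z
  rw [c1, c2, z1, z2, ← hT] at z
  set S := ∑ a, (2 * ∑ b, R a b b) • γ a with hS
  have e : ∑ a, ((-2) * ∑ b, R a b b) • γ a = -S := by
    rw [hS, ← sum_neg_distrib]
    refine sum_congr rfl fun a _ => ?_
    rw [← neg_smul]; congr 1; ring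
  rw [e]
  have z3 : (3 : ℝ) • (T + S) = 0 := by
    rw [← z, show (3 : ℝ) = 1 + 1 + 1 by norm_num]
    simp only [add_smul, one_smul]; abel
  have z4 := congrArg (fun w => (1 / 3 : ℝ) • w) z3
  simp only [smul_smul, smul_zero] at z4
  norm_num at z4
  exact eq_neg_of_add_eq_zero_left z4

lemma IsCliff.symm_sum (h : IsCliff γ) {S : ι → ι → ℝ} (hS : ∀ a b, S a b = S b a) :
    ∑ a, ∑ b, S a b • (γ a * γ b) = (-∑ a, S a a) • (1 : A) := by
  have e : (2 : ℝ) • ∑ a, ∑ b, S a b • (γ a * γ b) =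
      ∑ a, ∑ b, S a b • (γ a * γ b + γ b * γ a) := by
    rw [two_smul]
    simp only [smul_add, sum_add_distrib]
    congr 1
    rw [sum_comm]
    exact sum_congr rfl fun a _ => sum_congr rfl fun b _ => by rw [hS]
  have e2 : ∑ a, ∑ b, S a b • (γ a * γ b + γ b * γ a) = (2 : ℝ) • (-∑ a, S a a) • (1 : A) := by
    rw [smul_smul, ← sum_neg_distrib, mul_sum, sum_smul]
    refine sum_congr rfl fun a _ => ?_
    rw [sum_eq_single a (by intro b _ hb; rw [h a b, if_neg (Ne.symm hb), smul_zero]) (by simp),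
      h a a, if_pos rfl, smul_smul]
    congr 1; ring
  have e3 := congrArg (fun w => (1 / 2 : ℝ) • w) (e.trans e2)
  simpa only [smul_smul, ← mul_assoc, show (1 / 2 : ℝ) * 2 = 1 by norm_num, one_smul, one_mul]
    using e3

lemma IsCliff.quartic (h : IsCliff γ) {R : ι → ι → ι → ι → ℝ}
    (h1 : ∀ a b j k, R a b j k = -R b a j k) (h2 : ∀ a b j k, R a b j k = -R a b k j)
    (hB : ∀ a b j k, R a b j k + R b j a k + R j a b k = 0) :
    ∑ a, ∑ b, γ a * γ b * om γ (R a b) = ((∑ a, ∑ b, R a b b a) / 2) • (1 : A) := by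
  have e1 : ∑ a, ∑ b, γ a * γ b * om γ (R a b) =
      ∑ k, (1 / 4 : ℝ) • ((∑ a, ∑ b, ∑ j, R a b j k • (γ a * γ b * γ j)) * γ k) := by
    simp only [om, mul_sum, sum_mul, smul_sum, mul_smul_comm, smul_mul_assoc, smul_smul]
    symm
    rw [sum_comm]
    refine sum_congr rfl fun a _ => ?_
    rw [sum_comm]
    refine sum_congr rfl fun b _ => ?_
    rw [sum_comm]
    refine sum_congr rfl fun j _ => sum_congr rfl fun k _ => ?_
    rw [← mul_assoc]; congr 1; ring
  rw [e1]
  have e2 : ∀ k, ∑ a, ∑ b, ∑ j, R a b j k • (γ a * γ b * γ j) =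
      ∑ a, ((-2) * ∑ b, R a b b k) • γ a := fun k =>
    h.cubic (R := fun a b j => R a b j k) (fun a b j => h1 a b j k) (fun a b j => hB a b j k)
  simp only [e2]
  have hs : ∀ a k, (-(1 / 2) * ∑ b, R a b b k : ℝ) = -(1 / 2) * ∑ b, R k b b a := by
    intro a k
    congr 1
    refine sum_congr rfl fun b _ => ?_
    have t1 := hB a k b b
    have t2 := h2 a k b b
    have t3 := h2 k b a b
    have t4 := h1 b a k b
    have t5 := h2 a b k b
    linarith
  have e3 := h.symm_sum (S := fun a k => -(1 / 2) * ∑ b, R a b b k) hs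
  have e4 : ∑ k, (1 / 4 : ℝ) • ((∑ a, ((-2) * ∑ b, R a b b k) • γ a) * γ k) =
      ∑ a, ∑ k, (-(1 / 2) * ∑ b, R a b b k : ℝ) • (γ a * γ k) := by
    rw [sum_comm]
    refine sum_congr rfl fun k _ => ?_
    rw [sum_mul, smul_sum]
    refine sum_congr rfl fun a _ => ?_
    rw [smul_mul_assoc, smul_smul]; congr 1; ring
  rw [e4, e3, ← mul_sum]
  congr 1; ring

/-- Curvature coefficients from the jets of the connection coefficients. -/
def curv (c G : ι → ι → ι → ℝ) (dG : ι → ι → ι → ι → ℝ) (a b j k : ι) : ℝ :=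
  dG a b j k - dG b a j k + ∑ m, (G b j m * G a m k - G a j m * G b m k - c a b m * G m j k)

variable {V : Type*} [AddCommGroup V] [Module ℝ V] [Module A V] [IsScalarTower ℝ A V]

/-- The pointwise Lichnerowicz identity for jets. -/
theorem IsCliff.lich_pt (h : IsCliff γ) {c G : ι → ι → ι → ℝ} {dc dG : ι → ι → ι → ι → ℝ}
    (hc : ∀ a b m, c a b m = -c b a m) (hdc : ∀ d a b m, dc d a b m = -dc d b a m)
    (hG : ∀ a b m, G a b m = (c a b m + c m a b - c b m a) / 2)
    (hdG : ∀ d a b m, dG d a b m = (dc d a b m + dc d m a b - dc d b m a) / 2)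
    (hJ : ∀ a b j l, (dc a b j l + ∑ m, c b j m * c a m l) + (dc b j a l + ∑ m, c j a m * c b m l) +
      (dc j a b l + ∑ m, c a b m * c j m l) = 0)
    (u0 : V) (u1 : ι → V) (u2 : ι → ι → V) (hu : ∀ a b, u2 a b - u2 b a = ∑ m, c a b m • u1 m) :
    ∑ a, γ a • (∑ b, γ b • (u2 a b + (om γ (dG a b) • u0 + om γ (G b) • u1 a)) +
        om γ (G a) • ∑ b, γ b • (u1 b + om γ (G b) • u0)) =
      -∑ a, (u2 a a + (om γ (dG a a) • u0 + om γ (G a) • u1 a) +
          om γ (G a) • (u1 a + om γ (G a) • u0) - ∑ m, G a a m • (u1 m + om γ (G m) • u0)) +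
        ((∑ a, ∑ b, curv c G dG a b b a) / 4) • u0 := by
  have hGa : ∀ a b m, G a b m = -G a m b := by
    intro a b m; rw [hG, hG, hc a m b, hc b a m, hc m b a]; ring
  have hdGa : ∀ d a b m, dG d a b m = -dG d a m b := by
    intro d a b m; rw [hdG, hdG, hdc d a m b, hdc d b a m, hdc d m b a]; ring
  have hT : ∀ a b m, G a b m - G b a m = c a b m := by
    intro a b m; rw [hG, hG, hc b a m, hc m b a, hc a m b]; ring
  have hdT : ∀ d a b m, dG d a b m - dG d b a m = dc d a b m := by
    intro d a b m; rw [hdG, hdG, hdc d b a m, hdc d m b a, hdc d a m b]; ring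
  set N : ι → V := fun b => u1 b + om γ (G b) • u0 with hN
  set H : ι → ι → V := fun a b => u2 a b + (om γ (dG a b) • u0 + om γ (G b) • u1 a) +
    om γ (G a) • N b - ∑ m, G a b m • N m with hH
  have R1 : ∀ a b j k, curv c G dG a b j k = -curv c G dG b a j k := by
    intro a b j k
    simp only [curv]
    rw [neg_add, ← sum_neg_distrib, neg_sub]
    congr 1
    exact sum_congr rfl fun m _ => by rw [hc b a m]; ring
  have R2 : ∀ a b j k, curv c G dG a b j k = -curv c G dG a b k j := by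
    intro a b j k
    simp only [curv]
    rw [neg_add, ← sum_neg_distrib, hdGa a b k j, hdGa b a k j]
    congr 1
    · ring
    · exact sum_congr rfl fun m _ => by
        rw [hGa m k j, hGa b k m, hGa a m j, hGa a k m, hGa b m j]; ring
  have RB : ∀ a b j k, curv c G dG a b j k + curv c G dG b j a k + curv c G dG j a b k = 0 := by
    intro a b j k
    rw [← hJ a b j k, ← hdT a b j k, ← hdT b j a k, ← hdT j a b k]
    have e : ∑ m, (G b j m * G a m k - G a j m * G b m k - c a b m * G m j k) +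
        ∑ m, (G j a m * G b m k - G b a m * G j m k - c b j m * G m a k) +
        ∑ m, (G a b m * G j m k - G j b m * G a m k - c j a m * G m b k) =
        ∑ m, c b j m * c a m k + ∑ m, c j a m * c b m k + ∑ m, c a b m * c j m k := by
      simp only [← sum_add_distrib]
      refine sum_congr rfl fun m _ => ?_
      rw [← hT a m k, ← hT b m k, ← hT j m k, ← hT b j m, ← hT j a m, ← hT a b m]
      ring
    simp only [curv]
    linear_combination e
  have hK : ∀ a b, H a b - H b a = om γ (curv c G dG a b) • u0 := by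
    intro a b
    have e1 : om γ (curv c G dG a b) = om γ (dG a b) - om γ (dG b a) +
        ((om γ (G a) * om γ (G b) - om γ (G b) * om γ (G a)) - ∑ m, c a b m • om γ (G m)) := by
      rw [h.om_bracket (hGa a), ← om_sum, ← om_sub, ← om_sub, ← om_add]
      congr 1
      funext j k
      simp only [curv, sum_sub_distrib]
    have e2 : ∑ m, G a b m • N m - ∑ m, G b a m • N m =
        ∑ m, c a b m • u1 m + (∑ m, c a b m • om γ (G m)) • u0 := by
      rw [← sum_sub_distrib, sum_smul, ← sum_add_distrib]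
      refine sum_congr rfl fun m _ => ?_
      rw [← sub_smul, hT, hN, smul_add, smul_assoc]
    have e3 := hu a b
    rw [e1]
    simp only [hH, hN, add_smul, sub_smul, mul_smul, smul_add] at e2 ⊢
    linear_combination (norm := abel) e3 - e2
  have step1 : ∑ a, γ a • (∑ b, γ b • (u2 a b + (om γ (dG a b) • u0 + om γ (G b) • u1 a)) +
        om γ (G a) • ∑ b, γ b • N b) = ∑ a, ∑ b, (γ a * γ b) • H a b := by
    refine sum_congr rfl fun a _ => ?_
    have e1 : ∀ b, om γ (G a) • γ b • N b =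
        γ b • om γ (G a) • N b + ∑ m, G a b m • γ m • N b := by
      intro b
      have := h.om_comm (hGa a) b
      rw [sub_eq_iff_eq_add'] at this
      rw [← mul_smul, this, add_smul, mul_smul, sum_smul]
      simp only [smul_assoc]
    have e2 : ∑ b, ∑ m, G a b m • γ m • N b = -∑ b, γ b • ∑ m, G a b m • N m := by
      rw [sum_comm, ← sum_neg_distrib]
      refine sum_congr rfl fun b _ => ?_
      rw [smul_sum, ← sum_neg_distrib]
      refine sum_congr rfl fun m _ => ?_
      rw [hGa a m b, neg_smul, smul_comm (γ b)]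
    rw [smul_sum (r := om γ (G a))]
    simp only [e1, sum_add_distrib]
    rw [e2]
    simp only [mul_smul, ← smul_sum]
    congr 1
    simp only [hH, smul_add, smul_sub, sum_add_distrib, sum_sub_distrib]
    abel
  have step2 : (2 : ℝ) • ∑ a, ∑ b, (γ a * γ b) • H a b =
      (2 : ℝ) • (-∑ a, H a a + ((∑ a, ∑ b, curv c G dG a b b a) / 4) • u0) := by
    have e1 : ∑ a, ∑ b, (γ a * γ b) • H a b =
        -∑ a, ∑ b, (γ a * γ b) • H b a + (2 : ℝ) • -∑ a, H a a := by
      have e : ∀ a b, (γ a * γ b) • H a b = -((γ b * γ a) • H a b) +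
          if a = b then (-2 : ℝ) • H a b else 0 := by
        intro a b
        rw [h.swap a b, add_smul, neg_smul]
        split_ifs <;> simp
      rw [sum_congr rfl fun a _ => sum_congr rfl fun b _ => e a b]
      simp only [sum_add_distrib, sum_neg_distrib, sum_ite_eq, mem_univ, if_true]
      rw [sum_comm, ← smul_sum]
      simp
    have e2 := congrArg (fun w : A => w • u0) (h.quartic R1 R2 RB)
    simp only [sum_smul, mul_smul (_ * _), ← hK, smul_sub, sum_sub_distrib, smul_assoc,
      one_smul] at e2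
    rw [two_smul, smul_add, smul_smul]
    nth_rewrite 1 [e1]
    rw [show (2 : ℝ) * ((∑ a, ∑ b, curv c G dG a b b a) / 4) =
      (∑ a, ∑ b, curv c G dG a b b a) / 2 by ring, ← e2]
    abel
  have e3 := congrArg (fun w => (1 / 2 : ℝ) • w) step2
  simp only [smul_smul, show (1 / 2 : ℝ) * 2 = 1 by norm_num, one_smul] at e3
  exact step1.trans e3

end Pool.Agent.Lib.TH.Lich
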