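import Mathlib

/-! A continuous isometric intertwiner of smooth Clifford families is smooth. -/

noncomputable section

open Filter Topology Manifold
open scoped ContDiff

namespace Pool.Agent.Lib.TH.SmGauge

variable {ι : Type*} {A : Type*} [NormedRing A] [NormedAlgebra ℝ A]

/-- iterated projection onto the intertwiners -/
def prj (g' g : ι → A) : List ι → A → A
  | [], x => x
  | j :: l, x => (1 / 2 : ℝ) • (prj g' g l x - g' j * prj g' g l x * g j)

lemma prj_fix {g' g : ι → A} (hs : ∀ j, g j * g j = -1) {x : A} (hx : ∀ j, g' j * x = x * g j) :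
    ∀ l, prj g' g l x = x
  | [] => rfl
  | j :: l => by
    rw [prj, prj_fix hs hx l, hx j, mul_assoc, hs j, mul_neg, mul_one, sub_neg_eq_add, ← two_smul ℝ,
      smul_smul]
    norm_num

lemma prj_int {g' g : ι → A} (hs : ∀ j, g j * g j = -1) (hs' : ∀ j, g' j * g' j = -1)
    (ha : ∀ i j, i ≠ j → g i * g j = -(g j * g i))
    (ha' : ∀ i j, i ≠ j → g' i * g' j = -(g' j * g' i)) (x : A) :
    ∀ l, ∀ i ∈ l, g' i * prj g' g l x = prj g' g l x * g i
  | [], _, h => by simp at h
  | j :: l, i, h => by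
    rw [prj, mul_smul_comm, smul_mul_assoc]
    congr 1
    set z := prj g' g l x with hz
    by_cases hij : i = j
    · subst hij
      have e1 : g' i * (z - g' i * z * g i) = g' i * z - (g' i * g' i) * z * g i := by noncomm_ring
      have e2 : (z - g' i * z * g i) * g i = z * g i - g' i * z * (g i * g i) := by noncomm_ring
      rw [e1, e2, hs, hs']; noncomm_ring
    · have hi : i ∈ l := by simpa [hij] using h
      have ih := prj_int hs hs' ha ha' x l i hi
      rw [← hz] at ih
      have e1 : g' i * (z - g' j * z * g j) = g' i * z - (g' i * g' j) * z * g j := by noncomm_ring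
      have e2 : (z - g' j * z * g j) * g i = z * g i - g' j * z * (g j * g i) := by noncomm_ring
      rw [e1, e2, ha' i j hij, ha j i (Ne.symm hij), ih]
      have e3 : g' j * g' i * z * g j = g' j * (g' i * z) * g j := by noncomm_ring
      rw [neg_mul, neg_mul, e3, ih]; noncomm_ring

variable {E H M : Type*} [NormedAddCommGroup E] [NormedSpace ℝ E] [TopologicalSpace H]
  {I : ModelWithCorners ℝ E H} [TopologicalSpace M] [ChartedSpace H M]

lemma mul_smooth {f f' : M → A} {y0 : M} (h : ContMDiffAt I 𝓘(ℝ, A) ∞ f y0)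
    (h' : ContMDiffAt I 𝓘(ℝ, A) ∞ f' y0) : ContMDiffAt I 𝓘(ℝ, A) ∞ (fun y => f y * f' y) y0 :=
  (contDiff_mul (𝕜 := ℝ) (𝔸 := A)).contMDiff.contMDiffAt.comp y0 (h.prodMk_space h')

lemma prj_smooth {g' : M → ι → A} {g : ι → A} {y0 : M}
    (h : ∀ j, ContMDiffAt I 𝓘(ℝ, A) ∞ (fun y => g' y j) y0) (x : A) :
    ∀ l, ContMDiffAt I 𝓘(ℝ, A) ∞ (fun y => prj (g' y) g l x) y0
  | [] => contMDiffAt_const
  | j :: l => by
    have ih := prj_smooth (g := g) h x l
    exact (contMDiffAt_const (I' := 𝓘(ℝ, ℝ))).smul (ih.sub (mul_smooth (mul_smooth (h j) ih) contMDiffAt_const))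

variable {S : Type*} [NormedAddCommGroup S] [InnerProductSpace ℝ S]

/-- A continuous family of isometries which intertwines a fixed irreducible Clifford family with a
smooth one is smooth. -/
theorem smooth_gauge [Finite ι] {g : ι → S →L[ℝ] S} (hs : ∀ j, g j * g j = -1)
    (ha : ∀ i j, i ≠ j → g i * g j = -(g j * g i))
    (hcom : ∀ T : S →L[ℝ] S, (∀ j, g j * T = T * g j) → ∃ r : ℝ, T = r • 1)
    {g' : M → ι → S →L[ℝ] S} {a b : M → S →L[ℝ] S} {y0 : M}
    (hg : ∀ j, ContMDiffAt I 𝓘(ℝ, S →L[ℝ] S) ∞ (fun y => g' y j) y0)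
    (hc : ContinuousAt a y0)
    (h : ∀ᶠ y in 𝓝 y0, (∀ v, ‖a y v‖ = ‖v‖) ∧ a y * b y = 1 ∧ b y * a y = 1 ∧
      ∀ j, g' y j * a y = a y * g j) :
    ContMDiffAt I 𝓘(ℝ, S →L[ℝ] S) ∞ a y0 := by
  classical
  rcases subsingleton_or_nontrivial S with hS | hS
  · have : a = fun _ => 0 := by funext y; ext v; exact Subsingleton.elim _ _
    rw [this]; exact contMDiffAt_const
  obtain ⟨v, hv⟩ := exists_ne (0 : S)
  have hv' : 0 < ‖v‖ := norm_pos_iff.2 hv
  have := Fintype.ofFinite ι
  set l : List ι := Finset.univ.toList with hl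
  set T : M → S →L[ℝ] S := fun y => prj (g' y) g l (a y0) with hT
  have hTs : ContMDiffAt I 𝓘(ℝ, S →L[ℝ] S) ∞ T y0 := prj_smooth hg _ l
  have hT0 : T y0 = a y0 := prj_fix hs h.self_of_nhds.2.2.2 l
  have h1 : ∀ᶠ y in 𝓝 y0, ∃ r : ℝ, T y = r • a y := by
    filter_upwards [h] with y ⟨_, hab, hba, hi⟩
    have hg' : ∀ j, g' y j = a y * g j * b y := fun j => by rw [← hi j, mul_assoc, hab, mul_one]
    have hm : ∀ i j, g' y i * g' y j = a y * (g i * g j) * b y := fun i j => by
      rw [hg' i, hg' j]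
      calc a y * g i * b y * (a y * g j * b y) = a y * g i * (b y * a y) * g j * b y := by
            noncomm_ring
        _ = _ := by rw [hba]; noncomm_ring
    have hint := prj_int (g' := g' y) hs (fun j => by rw [hm, hs, mul_neg, neg_mul, mul_one, hab]) ha
      (fun i j hij => by rw [hm i j, hm j i, ha i j hij, mul_neg, neg_mul]) (a y0) l
    obtain ⟨r, hr⟩ := hcom (b y * T y) fun j => by
      have e := hint j (by simp [hl])
      change g' y j * T y = T y * g j at e
      rw [mul_assoc, ← e, hg' j]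
      calc g j * (b y * T y) = (b y * a y) * g j * (b y * T y) := by rw [hba, one_mul]
        _ = _ := by noncomm_ring
    refine ⟨r, ?_⟩
    calc T y = a y * b y * T y := by rw [hab, one_mul]
      _ = r • a y := by rw [mul_assoc, hr, mul_smul_comm, mul_one]
  have hpos : ∀ᶠ y in 𝓝 y0, 0 < inner ℝ (T y v) (a y v) := by
    have hcont : ContinuousAt (fun y => inner ℝ (T y v) (a y v)) y0 :=
      (hTs.continuousAt.clm_apply continuousAt_const).inner (hc.clm_apply continuousAt_const)
    refine hcont.eventually (lt_mem_nhds ?_)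
    simp only [hT0, real_inner_self_eq_norm_sq, h.self_of_nhds.1 v]
    positivity
  have hTv : T y0 v ≠ 0 := by
    rw [hT0, ← norm_pos_iff, h.self_of_nhds.1 v]; exact hv'
  have hn : ContMDiffAt I 𝓘(ℝ, ℝ) ∞ (fun y => ‖v‖ / ‖T y v‖) y0 := by
    have e1 : ContMDiffAt I 𝓘(ℝ, S) ∞ (fun y => T y v) y0 := hTs.clm_apply contMDiffAt_const
    have e2 : ContDiffAt ℝ ∞ (fun s : S => ‖v‖ / ‖s‖) (T y0 v) :=
      contDiffAt_const.div (contDiffAt_norm ℝ hTv) (norm_ne_zero_iff.2 hTv)
    exact ContMDiffAt.comp (g := fun s : S => ‖v‖ / ‖s‖) y0 e2.contMDiffAt e1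
  refine (hn.smul hTs).congr_of_eventuallyEq ?_
  filter_upwards [h, h1, hpos] with y ⟨hiso, _⟩ ⟨r, hr⟩ hp
  have hr0 : 0 < r := by
    rw [hr, smul_apply, real_inner_smul_left, real_inner_self_eq_norm_sq,
      hiso] at hp
    exact (mul_pos_iff_of_pos_right (by positivity)).1 hp
  change a y = (‖v‖ / ‖T y v‖) • T y
  rw [hr, smul_apply, norm_smul, hiso, smul_smul, Real.norm_of_nonneg hr0.le]
  rw [show ‖v‖ / (r * ‖v‖) * r = 1 by field_simp, one_smul]

end Pool.Agent.Lib.TH.SmGauge
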